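import Pool.Agent.H81.CP.X5

/-!
MP_6a7a6f_gt, the level of `rad 3`: two neighbouring phases of a quadrilateral without monopole.
-/

set_option autoImplicit false

open Pool.Agent.H58.FL Pool.Agent.H59 Pool.Agent.H48.FR Pool.Agent.H58.FN Pool.Agent.H59.CPT

namespace Pool.Agent.H81.CP

/-- reflection of the rim, general weights -/
theorem Ex.mir {v0 v1 v2 v3 A B C : ℝ} (h : Ex v0 v1 v2 v3 A B C) : Ex v0 v3 v2 v1 B A C := by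
  obtain ⟨d1, d2, d3, a1, a2, a3, a4, a5, a6, hf⟩ := h
  have e4 : B - -d3 + -d2 = B - d2 + d3 := by ring
  have e5 : A - -d2 + -d1 = A - d1 + d2 := by ring
  have e6 : C - -d1 + -d3 = C - d3 + d1 := by ring
  refine ⟨-d3, -d2, -d1, ?_, ?_, ?_, ?_, ?_, ?_, ?_⟩
  · rwa [abs_neg]
  · rwa [abs_neg]
  · rwa [abs_neg]
  · rwa [e4]
  · rwa [e5]
  · rwa [e6]
  · rw [e4, e5, e6, ck_neg, ck_neg, ck_neg]
    linarith

/-! ## the vertices -/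

theorem zla1 : Ex 100 90 85 97 11 6 (-(42 / 5)) := by
  refine Ex.vert (19 / 4) (-(3 / 4)) (-(13 / 4)) ?_ ?_ ?_ ?_ ?_ ?_ ?_ ?_ ?_ ?_ ?_ <;>
    norm_num [abs_le, ql]

theorem zla2 : Ex 100 90 85 97 11 (8083 / 1000) (-(42 / 5)) := by
  refine Ex.vert (9 / 2) (-(1 / 4)) (-(15 / 4)) ?_ ?_ ?_ ?_ ?_ ?_ ?_ ?_ ?_ ?_ ?_ <;>
    norm_num [abs_le, ql]

theorem zla3 : Ex 100 90 85 97 (18259 / 2500) (24241 / 2500) (-(42 / 5)) := by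
  refine Ex.vert (15 / 4) (1 / 2) (-(17 / 4)) ?_ ?_ ?_ ?_ ?_ ?_ ?_ ?_ ?_ ?_ ?_ <;>
    norm_num [abs_le, ql]

theorem zla4 : Ex 100 90 85 97 (46933 / 5000) (24241 / 2500) (-(42 / 5)) := by
  refine Ex.vert (17 / 4) (1 / 4) (-4) ?_ ?_ ?_ ?_ ?_ ?_ ?_ ?_ ?_ ?_ ?_ <;>
    norm_num [abs_le, ql]

theorem zlb1 : Ex 100 90 85 97 11 6 (-(63 / 10)) := by
  refine Ex.vert 4 (-(3 / 4)) (-(11 / 4)) ?_ ?_ ?_ ?_ ?_ ?_ ?_ ?_ ?_ ?_ ?_ <;>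
    norm_num [abs_le, ql]

theorem zlb2 : Ex 100 90 85 97 11 (7873 / 1000) (-(63 / 10)) := by
  refine Ex.vert (15 / 4) (-(1 / 4)) (-(13 / 4)) ?_ ?_ ?_ ?_ ?_ ?_ ?_ ?_ ?_ ?_ ?_ <;>
    norm_num [abs_le, ql]

theorem zlb3 : Ex 100 90 85 97 (18259 / 2500) (24241 / 2500) (-(63 / 10)) := by
  refine Ex.vert (13 / 4) (3 / 4) (-(7 / 2)) ?_ ?_ ?_ ?_ ?_ ?_ ?_ ?_ ?_ ?_ ?_ <;>
    norm_num [abs_le, ql]

theorem zlb4 : Ex 100 90 85 97 (45883 / 5000) (24241 / 2500) (-(63 / 10)) := by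
  refine Ex.vert (7 / 2) (1 / 4) (-(7 / 2)) ?_ ?_ ?_ ?_ ?_ ?_ ?_ ?_ ?_ ?_ ?_ <;>
    norm_num [abs_le, ql]

theorem zha1 : Ex 100 84 49 87 11 6 (-(63 / 10)) := by
  refine Ex.vert (13 / 4) (-(3 / 4)) (-(5 / 2)) ?_ ?_ ?_ ?_ ?_ ?_ ?_ ?_ ?_ ?_ ?_ <;>
    norm_num [abs_le, ql]

theorem zha2 : Ex 100 84 49 87 11 (7873 / 1000) (-(63 / 10)) := by
  refine Ex.vert (13 / 4) (-(3 / 4)) (-(11 / 4)) ?_ ?_ ?_ ?_ ?_ ?_ ?_ ?_ ?_ ?_ ?_ <;>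
    norm_num [abs_le, ql]

theorem zha3 : Ex 100 84 49 87 (18259 / 2500) (24241 / 2500) (-(63 / 10)) := by
  refine Ex.vert (11 / 4) (1 / 2) (-3) ?_ ?_ ?_ ?_ ?_ ?_ ?_ ?_ ?_ ?_ ?_ <;>
    norm_num [abs_le, ql]

theorem zha4 : Ex 100 84 49 87 (45883 / 5000) (24241 / 2500) (-(63 / 10)) := by
  refine Ex.vert 3 (1 / 4) (-(11 / 4)) ?_ ?_ ?_ ?_ ?_ ?_ ?_ ?_ ?_ ?_ ?_ <;>
    norm_num [abs_le, ql]

theorem zhb1 : Ex 100 84 49 87 11 6 (-3) := by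
  refine Ex.vert (5 / 2) (-(3 / 2)) (-(3 / 2)) ?_ ?_ ?_ ?_ ?_ ?_ ?_ ?_ ?_ ?_ ?_ <;>
    norm_num [abs_le, ql]

theorem zhb2 : Ex 100 84 49 87 11 (7543 / 1000) (-3) := by
  refine Ex.vert (14 / 5) (-(6 / 5)) (-(9 / 5)) ?_ ?_ ?_ ?_ ?_ ?_ ?_ ?_ ?_ ?_ ?_ <;>
    norm_num [abs_le, ql]

theorem zhb3 : Ex 100 84 49 87 (18259 / 2500) (24241 / 2500) (-3) := by
  refine Ex.vert (7 / 4) (3 / 4) (-2) ?_ ?_ ?_ ?_ ?_ ?_ ?_ ?_ ?_ ?_ ?_ <;>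
    norm_num [abs_le, ql]

theorem zhb4 : Ex 100 84 49 87 (44233 / 5000) (24241 / 2500) (-3) := by
  refine Ex.vert (9 / 4) (1 / 4) (-(5 / 2)) ?_ ?_ ?_ ?_ ?_ ?_ ?_ ?_ ?_ ?_ ?_ <;>
    norm_num [abs_le, ql]

/-! ## the boxes -/

/-- a graded box, `s = x + y` -/
theorem z_box {v0 v1 v2 v3 : ℝ} (hv0 : 0 ≤ v0) (hv1 : 0 ≤ v1) (hv2 : 0 ≤ v2) (hv3 : 0 ≤ v3)
    (r0 r1 : ℝ) (hr : r0 < r1) (hr0 : 28 / 5 ≤ r0) (hr1 : r1 ≤ 11)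
    (a1 : Ex v0 v1 v2 v3 11 6 (r0 - 14)) (b1 : Ex v0 v1 v2 v3 11 6 (r1 - 14))
    (a2 : Ex v0 v1 v2 v3 11 (14 - (8357 / 1000 + r0 / 10 - 3)) (r0 - 14))
    (b2 : Ex v0 v1 v2 v3 11 (14 - (8357 / 1000 + r1 / 10 - 3)) (r1 - 14))
    (a3 : Ex v0 v1 v2 v3 (18259 / 2500) (24241 / 2500) (r0 - 14))
    (b3 : Ex v0 v1 v2 v3 (18259 / 2500) (24241 / 2500) (r1 - 14))
    (a4 : Ex v0 v1 v2 v3 (14 - (8357 / 1000 + r0 / 10 - 10759 / 2500)) (24241 / 2500) (r0 - 14))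
    (b4 : Ex v0 v1 v2 v3 (14 - (8357 / 1000 + r1 / 10 - 10759 / 2500)) (24241 / 2500) (r1 - 14))
    (x y r : ℝ) (h1 : r0 ≤ r) (h2 : r ≤ r1) (hx : 3 ≤ x) (hy : 10759 / 2500 ≤ y)
    (hs : 8357 / 1000 + r / 10 ≤ x + y) (hs2 : x + y ≤ 11) :
    Ex v0 v1 v2 v3 (14 - x) (14 - y) (r - 14) := by
  have c1 : Ex v0 v1 v2 v3 11 6 (r - 14) :=
    Ex.line hv0 hv1 hv2 hv3 a1 b1 r0 r1 r h1 h2 hr (by ring) (by ring) (by ring)
  have c2 : Ex v0 v1 v2 v3 11 (14 - (8357 / 1000 + r / 10 - 3)) (r - 14) :=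
    Ex.line hv0 hv1 hv2 hv3 a2 b2 r0 r1 r h1 h2 hr (by ring) (by ring) (by ring)
  have c3 : Ex v0 v1 v2 v3 (18259 / 2500) (24241 / 2500) (r - 14) :=
    Ex.line hv0 hv1 hv2 hv3 a3 b3 r0 r1 r h1 h2 hr (by ring) (by ring) (by ring)
  have c4 : Ex v0 v1 v2 v3 (14 - (8357 / 1000 + r / 10 - 10759 / 2500)) (24241 / 2500)
      (r - 14) :=
    Ex.line hv0 hv1 hv2 hv3 a4 b4 r0 r1 r h1 h2 hr (by ring) (by ring) (by ring)
  have d1 : Ex v0 v1 v2 v3 11 (14 - (x + y - 3)) (r - 14) :=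
    Ex.line hv0 hv1 hv2 hv3 c2 c1 (8357 / 1000 + r / 10) 11 (x + y) hs hs2 (by linarith)
      (by ring) (by ring) (by ring)
  have d2 : Ex v0 v1 v2 v3 (14 - (x + y - 10759 / 2500)) (24241 / 2500) (r - 14) :=
    Ex.line hv0 hv1 hv2 hv3 c4 c3 (8357 / 1000 + r / 10) 11 (x + y) hs hs2 (by linarith)
      (by ring) (by ring) (by ring)
  exact Ex.line hv0 hv1 hv2 hv3 d1 d2 3 (x + y - 10759 / 2500) x hx (by linarith)
    (by linarith) (by ring) (by ring) (by ring)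

theorem z_lo (x y r : ℝ) (h1 : 28 / 5 ≤ r) (h2 : r ≤ 77 / 10) (hx : 3 ≤ x)
    (hy : 10759 / 2500 ≤ y) (hs : 8357 / 1000 + r / 10 ≤ x + y) (hs2 : x + y ≤ 11) :
    Ex 100 90 85 97 (14 - x) (14 - y) (r - 14) := by
  refine z_box (by norm_num) (by norm_num) (by norm_num) (by norm_num) (28 / 5) (77 / 10)
    (by norm_num) (by norm_num) (by norm_num) ?_ ?_ ?_ ?_ ?_ ?_ ?_ ?_ x y r h1 h2 hx hy hs hs2
  · have h := zla1
    norm_num at h ⊢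
    exact h
  · have h := zlb1
    norm_num at h ⊢
    exact h
  · have h := zla2
    norm_num at h ⊢
    exact h
  · have h := zlb2
    norm_num at h ⊢
    exact h
  · have h := zla3
    norm_num at h ⊢
    exact h
  · have h := zlb3
    norm_num at h ⊢
    exact h
  · have h := zla4
    norm_num at h ⊢
    exact h
  · have h := zlb4
    norm_num at h ⊢
    exact h

theorem z_hi (x y r : ℝ) (h1 : 77 / 10 ≤ r) (h2 : r ≤ 11) (hx : 3 ≤ x)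
    (hy : 10759 / 2500 ≤ y) (hs : 8357 / 1000 + r / 10 ≤ x + y) (hs2 : x + y ≤ 11) :
    Ex 100 84 49 87 (14 - x) (14 - y) (r - 14) := by
  refine z_box (by norm_num) (by norm_num) (by norm_num) (by norm_num) (77 / 10) 11
    (by norm_num) (by norm_num) (by norm_num) ?_ ?_ ?_ ?_ ?_ ?_ ?_ ?_ x y r h1 h2 hx hy hs hs2
  · have h := zha1
    norm_num at h ⊢
    exact h
  · have h := zhb1
    norm_num at h ⊢
    exact h
  · have h := zha2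
    norm_num at h ⊢
    exact h
  · have h := zhb2
    norm_num at h ⊢
    exact h
  · have h := zha3
    norm_num at h ⊢
    exact h
  · have h := zhb3
    norm_num at h ⊢
    exact h
  · have h := zha4
    norm_num at h ⊢
    exact h
  · have h := zhb4
    norm_num at h ⊢
    exact h

/-- there are weights -/
theorem z_ex (x y r : ℝ) (h1 : 28 / 5 ≤ r) (h2 : r ≤ 11) (hx : 3 ≤ x)
    (hy : 10759 / 2500 ≤ y) (hs : 8357 / 1000 + r / 10 ≤ x + y) (hs2 : x + y ≤ 11) :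
    ∃ v0 v1 v2 v3 : ℝ, 0 < v0 ∧ 0 ≤ v1 ∧ 0 ≤ v2 ∧ 0 ≤ v3 ∧
      Ex v0 v1 v2 v3 (14 - x) (14 - y) (r - 14) := by
  rcases le_total r (77 / 10) with h | h
  · exact ⟨_, _, _, _, by norm_num, by norm_num, by norm_num, by norm_num,
      z_lo x y r h1 h hx hy hs hs2⟩
  · exact ⟨_, _, _, _, by norm_num, by norm_num, by norm_num, by norm_num,
      z_hi x y r h h2 hx hy hs hs2⟩

/-! ## vectors -/

theorem pf_ZA (hMN : T_MN3) : Pool.Agent.H59.CPT.T_ZA := by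
  intro E _ _ p hp hm h1 h2 h3
  have hpi := Real.pi_pos
  obtain ⟨u, hu⟩ : ∃ u, u = Real.pi / 14 := ⟨_, rfl⟩
  have hu0 : 0 < u := by rw [hu]; positivity
  have hpu : Real.pi = 14 * u := by rw [hu]; ring
  have T := tri hMN p hp
  obtain ⟨x, hx⟩ : ∃ s, ar (p 0) (p 1) (p 2) = s * u := ⟨ar (p 0) (p 1) (p 2) / u, by field_simp⟩
  obtain ⟨y, hy⟩ : ∃ s, ar (p 0) (p 2) (p 3) = s * u := ⟨ar (p 0) (p 2) (p 3) / u, by field_simp⟩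
  obtain ⟨r, hr⟩ : ∃ s, ar (p 0) (p 1) (p 3) = s * u := ⟨ar (p 0) (p 1) (p 3) / u, by field_simp⟩
  have hq := QUAD p hp hm
  have hb := (T 0 1 3).2.2.2.2.2
  rw [hx, hy, hpu] at hq
  rw [hr, hpu] at hb
  rw [hx, hpu] at h1
  rw [hy, hpu] at h2
  rw [hr, hpu] at h3
  have dw : ∀ {x y : ℝ}, x * u ≤ y * u → x ≤ y := fun h => le_of_mul_le_mul_right h hu0
  by_contra hc
  push Not at hc
  rw [hx, hy, hr, hpu] at hc
  obtain ⟨v0, v1, v2, v3, g0, g1, g2, g3, hE⟩ := z_ex x y r (dw (by linarith))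
    (dw (by linarith [(abs_lt.1 hb).2])) (dw (by linarith)) (dw (by linarith))
    (dw (by linarith)) (dw (by linarith))
  refine Ex.elim (h := p 0) (a := p 1) (b := p 2) (c := p 3) (hp.1 _) (hp.1 _) (hp.1 _) (hp.1 _)
    (hp.2 _ _) (hp.2 _ _) (hp.2 _ _) (hp.2 _ _) (hp.2 _ _) (hp.2 _ _) g0.le g1 g2 g3 g0
    (x := x) (y := y) (z := -r) (by rw [hx, hu]) (by rw [hy, hu]) (by rw [hr, hu]; ring)
    0 0 (-1) ?_ ?_ ?_ hE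
  · push_cast
    ring
  · push_cast
    ring
  · push_cast
    ring

theorem pf_ZB (hMN : T_MN3) : Pool.Agent.H59.CPT.T_ZB := by
  intro E _ _ p hp hm h1 h2 h3
  have hpi := Real.pi_pos
  obtain ⟨u, hu⟩ : ∃ u, u = Real.pi / 14 := ⟨_, rfl⟩
  have hu0 : 0 < u := by rw [hu]; positivity
  have hpu : Real.pi = 14 * u := by rw [hu]; ring
  have T := tri hMN p hp
  obtain ⟨x, hx⟩ : ∃ s, ar (p 0) (p 1) (p 2) = s * u := ⟨ar (p 0) (p 1) (p 2) / u, by field_simp⟩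
  obtain ⟨y, hy⟩ : ∃ s, ar (p 0) (p 2) (p 3) = s * u := ⟨ar (p 0) (p 2) (p 3) / u, by field_simp⟩
  obtain ⟨r, hr⟩ : ∃ s, ar (p 0) (p 1) (p 3) = s * u := ⟨ar (p 0) (p 1) (p 3) / u, by field_simp⟩
  have hq := QUAD p hp hm
  have hb := (T 0 1 3).2.2.2.2.2
  rw [hx, hy, hpu] at hq
  rw [hr, hpu] at hb
  rw [hx, hpu] at h1
  rw [hy, hpu] at h2
  rw [hr, hpu] at h3
  have dw : ∀ {x y : ℝ}, x * u ≤ y * u → x ≤ y := fun h => le_of_mul_le_mul_right h hu0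
  by_contra hc
  push Not at hc
  rw [hx, hy, hr, hpu] at hc
  obtain ⟨v0, v1, v2, v3, g0, g1, g2, g3, hE⟩ := z_ex y x r (dw (by linarith))
    (dw (by linarith [(abs_lt.1 hb).2])) (dw (by linarith)) (dw (by linarith))
    (dw (by linarith)) (dw (by linarith))
  refine Ex.elim (h := p 0) (a := p 1) (b := p 2) (c := p 3) (hp.1 _) (hp.1 _) (hp.1 _) (hp.1 _)
    (hp.2 _ _) (hp.2 _ _) (hp.2 _ _) (hp.2 _ _) (hp.2 _ _) (hp.2 _ _) g0.le g3 g2 g1 g0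
    (x := x) (y := y) (z := -r) (by rw [hx, hu]) (by rw [hy, hu]) (by rw [hr, hu]; ring)
    0 0 (-1) ?_ ?_ ?_ hE.mir
  · push_cast
    ring
  · push_cast
    ring
  · push_cast
    ring

end Pool.Agent.H81.CP
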