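import Pool.Agent.H58.FN.Defs

/-!
MP_6a7a6f_gt, the level of `rad 3`: certificates of rank one.
-/

set_option autoImplicit false

open Pool.Agent.H58.FL Pool.Agent.H59 Pool.Agent.H48.FR Pool.Agent.H58.FN

namespace Pool.Agent.H81.CP

noncomputable section

section geo

variable {E : Type} [NormedAddCommGroup E] [InnerProductSpace ℂ E]

theorem psd {n : ℕ} (x : Fin n → E) (z : Fin n → ℂ) :
    0 ≤ ∑ i, ∑ j, ((starRingEnd ℂ) (z i) * z j * inner ℂ (x i) (x j)).re := by
  have h1 : (inner ℂ (∑ i, z i • x i) (∑ i, z i • x i)).re =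
      ∑ i, ∑ j, ((starRingEnd ℂ) (z i) * z j * inner ℂ (x i) (x j)).re := by
    rw [sum_inner, Complex.re_sum]
    refine Finset.sum_congr rfl fun i _ => ?_
    rw [inner_sum, Complex.re_sum]
    refine Finset.sum_congr rfl fun j _ => ?_
    rw [inner_smul_left, inner_smul_right]
    congr 1
    ring
  rw [← h1]
  have h2 := inner_self_nonneg (𝕜 := ℂ) (x := ∑ i, z i • x i)
  simpa using h2

/-- the unit complex number which turns the inner product into a positive number -/
def uu (h a : E) : ℂ := (starRingEnd ℂ) (inner ℂ h a) / ‖inner ℂ h a‖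

theorem uu_mul {h a : E} (ha : inner ℂ h a ≠ 0) : uu h a * inner ℂ h a = ‖inner ℂ h a‖ := by
  have h0 : (‖inner ℂ h a‖ : ℂ) ≠ 0 := by
    simpa using ha
  unfold uu
  rw [div_mul_eq_mul_div, div_eq_iff h0, Complex.conj_mul']
  ring

theorem uu_conj {h a : E} : (starRingEnd ℂ) (uu h a) = inner ℂ h a / ‖inner ℂ h a‖ := by
  unfold uu
  rw [map_div₀, Complex.conj_conj, Complex.conj_ofReal]

theorem uu_norm {h a : E} (ha : inner ℂ h a ≠ 0) : (starRingEnd ℂ) (uu h a) * uu h a = 1 := by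
  have h0 : (‖inner ℂ h a‖ : ℂ) ≠ 0 := by
    simpa using ha
  rw [uu_conj]
  unfold uu
  rw [div_mul_div_comm, Complex.mul_conj', div_eq_one_iff_eq (mul_ne_zero h0 h0)]
  ring

theorem uu_phase {h a b : E} (ha : inner ℂ h a ≠ 0) (hb : inner ℂ h b ≠ 0) :
    (starRingEnd ℂ) (uu h a) * uu h b * inner ℂ a b =
      ‖inner ℂ a b‖ * Complex.exp (ar h a b * Complex.I) := by
  have h0 : (‖inner ℂ h a‖ : ℂ) ≠ 0 := by
    simpa using ha
  have h1 : (‖inner ℂ h b‖ : ℂ) ≠ 0 := by
    simpa using hb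
  have h2 := Complex.norm_mul_exp_arg_mul_I (inner ℂ h a * inner ℂ a b * inner ℂ b h)
  have h3 : (starRingEnd ℂ) (inner ℂ h b) = inner ℂ b h := inner_conj_symm b h
  have h4 : ‖inner ℂ b h‖ = ‖inner ℂ h b‖ := norm_inner_symm b h
  rw [norm_mul, norm_mul, h4] at h2
  push_cast at h2
  change ↑‖inner ℂ h a‖ * ↑‖inner ℂ a b‖ * ↑‖inner ℂ h b‖ *
    Complex.exp (ar h a b * Complex.I) = _ at h2
  rw [uu_conj]
  unfold uu
  rw [h3]
  field_simp
  linear_combination -h2

/-- the certificate of rank one with the hub `h` -/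
theorem cert {n : ℕ} (h : E) (p : Fin n → E) (hh : ‖h‖ = 1) (hp : ∀ i, ‖p i‖ = 1)
    (h0 : ∀ i, inner ℂ h (p i) ≠ 0) (v : ℝ) (w d : Fin n → ℝ) :
    2 * ∑ i, v * w i * ‖inner ℂ h (p i)‖ * Real.cos (d i) +
      ∑ i, ∑ j, (if i = j then 0 else w i * w j * ‖inner ℂ (p i) (p j)‖ *
        Real.cos (Real.pi - ar h (p i) (p j) - d i + d j)) ≤ v ^ 2 + ∑ i, w i ^ 2 := by
  have hz := psd (n := n + 1) (Fin.cons h p)
    (Fin.cons (v : ℂ) (fun i => -(w i : ℂ) * Complex.exp (-(d i : ℂ) * Complex.I) * uu h (p i)))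
  simp only [Fin.sum_univ_succ, Fin.cons_zero, Fin.cons_succ, Finset.sum_add_distrib] at hz
  have e0 : ((starRingEnd ℂ) (v : ℂ) * v * inner ℂ h h).re = v ^ 2 := by
    rw [inner_self_eq_norm_sq_to_K, hh, Complex.conj_ofReal]
    simp
    ring
  have e1 : ∀ i, ((starRingEnd ℂ) (v : ℂ) *
      (-(w i : ℂ) * Complex.exp (-(d i : ℂ) * Complex.I) * uu h (p i)) *
        inner ℂ h (p i)).re = -(v * w i * ‖inner ℂ h (p i)‖ * Real.cos (d i)) := by
    intro i
    have e2 : (starRingEnd ℂ) (v : ℂ) *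
      (-(w i : ℂ) * Complex.exp (-(d i : ℂ) * Complex.I) * uu h (p i)) * inner ℂ h (p i) =
      ((-(v * w i * ‖inner ℂ h (p i)‖) : ℝ) : ℂ) * Complex.exp ((-(d i) : ℝ) * Complex.I) := by
      rw [Complex.conj_ofReal]
      push_cast
      linear_combination (-(v : ℂ) * w i * Complex.exp (-(d i : ℂ) * Complex.I)) *
        uu_mul (h0 i)
    rw [e2, Complex.re_ofReal_mul, Complex.exp_ofReal_mul_I_re, Real.cos_neg]
    ring
  have e3 : ∀ i, ((starRingEnd ℂ) (-(w i : ℂ) * Complex.exp (-(d i : ℂ) * Complex.I) *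
      uu h (p i)) * (v : ℂ) * inner ℂ (p i) h).re =
      -(v * w i * ‖inner ℂ h (p i)‖ * Real.cos (d i)) := by
    intro i
    rw [← e1 i]
    generalize -(w i : ℂ) * Complex.exp (-(d i : ℂ) * Complex.I) * uu h (p i) = Z
    rw [← Complex.conj_re, map_mul, map_mul, inner_conj_symm, Complex.conj_conj]
    congr 1
    ring
  have e4 : ∀ i j, ((starRingEnd ℂ) (-(w i : ℂ) * Complex.exp (-(d i : ℂ) * Complex.I) *
      uu h (p i)) * (-(w j : ℂ) * Complex.exp (-(d j : ℂ) * Complex.I) * uu h (p j)) *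
        inner ℂ (p i) (p j)).re =
      (if i = j then w i ^ 2 else 0) - (if i = j then 0 else w i * w j *
        ‖inner ℂ (p i) (p j)‖ * Real.cos (Real.pi - ar h (p i) (p j) - d i + d j)) := by
    intro i j
    have c1 : (starRingEnd ℂ) (Complex.exp (-(d i : ℂ) * Complex.I)) =
        Complex.exp ((d i : ℂ) * Complex.I) := by
      rw [← Complex.exp_conj]
      congr 1
      rw [map_mul, map_neg, Complex.conj_ofReal, Complex.conj_I]
      ring
    by_cases hij : i = j
    · subst hij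
      rw [if_pos rfl, if_pos rfl, sub_zero, map_mul, map_mul, map_neg, Complex.conj_ofReal, c1,
        inner_self_eq_norm_sq_to_K, hp i]
      have c2 : Complex.exp ((d i : ℂ) * Complex.I) * Complex.exp (-(d i : ℂ) * Complex.I) =
          1 := by
        rw [← Complex.exp_add]
        have : (d i : ℂ) * Complex.I + -(d i : ℂ) * Complex.I = 0 := by ring
        rw [this, Complex.exp_zero]
      have c3 : -(w i : ℂ) * Complex.exp ((d i : ℂ) * Complex.I) * (starRingEnd ℂ) (uu h (p i)) *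
          (-(w i : ℂ) * Complex.exp (-(d i : ℂ) * Complex.I) * uu h (p i)) *
            (((1 : ℝ) : ℂ)) ^ 2 = ((w i ^ 2 : ℝ) : ℂ) := by
        push_cast
        linear_combination (w i : ℂ) ^ 2 * ((starRingEnd ℂ) (uu h (p i)) * uu h (p i)) * c2 +
          (w i : ℂ) ^ 2 * uu_norm (h0 i)
      exact (congrArg Complex.re c3).trans (Complex.ofReal_re _)
    · rw [if_neg hij, if_neg hij, zero_sub]
      have c4 : (starRingEnd ℂ) (-(w i : ℂ) * Complex.exp (-(d i : ℂ) * Complex.I) *
          uu h (p i)) * (-(w j : ℂ) * Complex.exp (-(d j : ℂ) * Complex.I) * uu h (p j)) *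
          inner ℂ (p i) (p j) = ((w i * w j * ‖inner ℂ (p i) (p j)‖ : ℝ) : ℂ) *
          Complex.exp ((ar h (p i) (p j) + d i - d j : ℝ) * Complex.I) := by
        rw [map_mul, map_mul, map_neg, Complex.conj_ofReal, c1]
        have c5 : Complex.exp ((ar h (p i) (p j) + d i - d j : ℝ) * Complex.I) =
            Complex.exp (ar h (p i) (p j) * Complex.I) * Complex.exp ((d i : ℂ) * Complex.I) *
              Complex.exp (-(d j : ℂ) * Complex.I) := by
          rw [← Complex.exp_add, ← Complex.exp_add]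
          congr 1
          push_cast
          ring
        rw [c5]
        push_cast
        linear_combination ((w i : ℂ) * w j * Complex.exp ((d i : ℂ) * Complex.I) *
          Complex.exp (-(d j : ℂ) * Complex.I)) * uu_phase (h0 i) (h0 j)
      rw [c4, Complex.re_ofReal_mul, Complex.exp_ofReal_mul_I_re]
      have c6 : Real.pi - ar h (p i) (p j) - d i + d j =
          Real.pi - (ar h (p i) (p j) + d i - d j) := by ring
      rw [c6, Real.cos_pi_sub]
      ring
  simp only [e0, e1, e3, e4, Finset.sum_sub_distrib, Finset.sum_neg_distrib,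
    Finset.sum_ite_eq, Finset.mem_univ, if_true] at hz
  linarith

end geo

end

end Pool.Agent.H81.CP
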