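import Pool.Agent.H81.CP.Trig
import Pool.Agent.H59.CPT.Cert

/-!
MP_6a7a6f_gt, the level of `rad 3`: certificates for four vectors, convexity in the areas.
-/

set_option autoImplicit false

open Pool.Agent.H58.FL Pool.Agent.H59 Pool.Agent.H48.FR Pool.Agent.H58.FN Pool.Agent.H59.CPT

namespace Pool.Agent.H81.CP

/-! ## a lower bound for the cosine -/

/-- a function with nonnegative derivative on the positive half line -/
theorem nn_of_deriv (f g : ℝ → ℝ) (h : ∀ x, HasDerivAt f (g x) x) (h0 : f 0 = 0)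
    (hg : ∀ x, 0 ≤ x → 0 ≤ g x) : ∀ x, 0 ≤ x → 0 ≤ f x := by
  intro x hx
  have hm : MonotoneOn f (Set.Ici 0) := by
    refine monotoneOn_of_deriv_nonneg (convex_Ici 0)
      (fun y _ => (h y).continuousAt.continuousWithinAt)
      (fun y _ => (h y).differentiableAt.differentiableWithinAt) ?_
    intro y hy
    rw [interior_Ici] at hy
    rw [(h y).deriv]
    exact hg y (le_of_lt hy)
  have h1 := hm (Set.self_mem_Ici) hx hx
  rwa [h0] at h1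

theorem sin_t3 : ∀ x : ℝ, 0 ≤ x → 0 ≤ Real.sin x - x + x ^ 3 / 6 := by
  refine nn_of_deriv _ (fun x => Real.cos x - 1 + x ^ 2 / 2) ?_ (by norm_num) ?_
  · intro x
    have h1 := ((Real.hasDerivAt_sin x).sub (hasDerivAt_id x)).add
      ((hasDerivAt_pow 3 x).div_const 6)
    refine h1.congr_deriv ?_
    norm_num
    ring
  · intro x _
    have := Real.one_sub_sq_div_two_le_cos (x := x)
    linarith

theorem cos_t4 : ∀ x : ℝ, 0 ≤ x → 0 ≤ 1 - x ^ 2 / 2 + x ^ 4 / 24 - Real.cos x := by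
  refine nn_of_deriv _ (fun x => Real.sin x - x + x ^ 3 / 6) ?_ (by norm_num) sin_t3
  intro x
  have h1 := (((hasDerivAt_const x (1 : ℝ)).sub ((hasDerivAt_pow 2 x).div_const 2)).add
      ((hasDerivAt_pow 4 x).div_const 24)).sub (Real.hasDerivAt_cos x)
  refine h1.congr_deriv ?_
  norm_num
  ring

theorem sin_t5 : ∀ x : ℝ, 0 ≤ x → 0 ≤ x - x ^ 3 / 6 + x ^ 5 / 120 - Real.sin x := by
  refine nn_of_deriv _ (fun x => 1 - x ^ 2 / 2 + x ^ 4 / 24 - Real.cos x) ?_ (by norm_num) cos_t4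
  intro x
  have h1 := (((hasDerivAt_id x).sub ((hasDerivAt_pow 3 x).div_const 6)).add
      ((hasDerivAt_pow 5 x).div_const 120)).sub (Real.hasDerivAt_sin x)
  refine h1.congr_deriv ?_
  norm_num
  ring

theorem cos_t6 : ∀ x : ℝ, 0 ≤ x → 0 ≤ Real.cos x - 1 + x ^ 2 / 2 - x ^ 4 / 24 + x ^ 6 / 720 := by
  refine nn_of_deriv _ (fun x => x - x ^ 3 / 6 + x ^ 5 / 120 - Real.sin x) ?_ (by norm_num) sin_t5
  intro x
  have h1 := (((Real.hasDerivAt_cos x).sub (hasDerivAt_const x (1 : ℝ))).add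
      ((hasDerivAt_pow 2 x).div_const 2)).sub ((hasDerivAt_pow 4 x).div_const 24)
  have h2 := h1.add ((hasDerivAt_pow 6 x).div_const 720)
  refine h2.congr_deriv ?_
  norm_num
  ring

/-- a polynomial below the cosine, `t` is the square of the argument in units of `π / 14` -/
noncomputable def ql (t : ℝ) : ℝ :=
  1 - 5035514 / 200000000 * t + (5035510 / 100000000) ^ 2 / 24 * t ^ 2 -
    (5035514 / 100000000) ^ 3 / 720 * t ^ 3

theorem usq : 5035510 / 100000000 < (Real.pi / 14) ^ 2 ∧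
    (Real.pi / 14) ^ 2 < 5035514 / 100000000 := by
  have h1 := Real.pi_gt_d6
  have h2 := Real.pi_lt_d6
  constructor
  · nlinarith
  · nlinarith

theorem ck_ge (r : ℝ) : ql (r ^ 2) ≤ ck r := by
  have h := cos_t6 |r * (Real.pi / 14)| (abs_nonneg _)
  rw [Real.cos_abs] at h
  have e2 : |r * (Real.pi / 14)| ^ 2 = r ^ 2 * (Real.pi / 14) ^ 2 := by rw [sq_abs]; ring
  have e4 : |r * (Real.pi / 14)| ^ 4 = (r ^ 2) ^ 2 * ((Real.pi / 14) ^ 2) ^ 2 := by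
    rw [show (4 : ℕ) = 2 * 2 by norm_num, pow_mul, e2]; ring
  have e6 : |r * (Real.pi / 14)| ^ 6 = (r ^ 2) ^ 3 * ((Real.pi / 14) ^ 2) ^ 3 := by
    rw [show (6 : ℕ) = 2 * 3 by norm_num, pow_mul, e2]; ring
  rw [e2, e4, e6] at h
  obtain ⟨a, b⟩ := usq
  obtain ⟨U, hU⟩ : ∃ U, U = (Real.pi / 14) ^ 2 := ⟨_, rfl⟩
  obtain ⟨t, ht⟩ : ∃ t, t = r ^ 2 := ⟨_, rfl⟩
  have ht0 : 0 ≤ t := by rw [ht]; positivity
  rw [← hU] at a b h
  rw [← ht] at h ⊢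
  have i1 : t * U ≤ t * (5035514 / 100000000) := mul_le_mul_of_nonneg_left b.le ht0
  have i2 : t ^ 2 * (5035510 / 100000000) ^ 2 ≤ t ^ 2 * U ^ 2 :=
    mul_le_mul_of_nonneg_left (pow_le_pow_left₀ (by norm_num) a.le 2) (by positivity)
  have i3 : t ^ 3 * U ^ 3 ≤ t ^ 3 * (5035514 / 100000000) ^ 3 :=
    mul_le_mul_of_nonneg_left (pow_le_pow_left₀ (by linarith) b.le 3) (by positivity)
  unfold ck ql
  linarith

/-! ## the certificates -/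

/-- The areas `x, y, z` at the hub (in units of `π / 14`) are impossible with the weights `v`:
here `A = 14 - x`, `B = 14 - y`, `C = 14 - z` modulo `28`. -/
def Ex (v0 v1 v2 v3 A B C : ℝ) : Prop := ∃ d1 d2 d3 : ℝ, |d1| ≤ 7 ∧ |d2| ≤ 7 ∧ |d3| ≤ 7 ∧
  |A - d1 + d2| ≤ 7 ∧ |B - d2 + d3| ≤ 7 ∧ |C - d3 + d1| ≤ 7 ∧
  ck 1 * (v0 ^ 2 + v1 ^ 2 + v2 ^ 2 + v3 ^ 2) ≤
    v0 * v1 * ck d1 + v0 * v2 * ck d2 + v0 * v3 * ck d3 + v1 * v2 * ck (A - d1 + d2) +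
      v2 * v3 * ck (B - d2 + d3) + v1 * v3 * ck (C - d3 + d1)

theorem ck_conc (x y l : ℝ) (hx : |x| ≤ 7) (hy : |y| ≤ 7) (h0 : 0 ≤ l) (h1 : l ≤ 1) :
    (1 - l) * ck x + l * ck y ≤ ck ((1 - l) * x + l * y) ∧ |(1 - l) * x + l * y| ≤ 7 := by
  have hp := Real.pi_pos
  have key : ∀ x : ℝ, |x| ≤ 7 → x * (Real.pi / 14) ∈ Set.Icc (-(Real.pi / 2)) (Real.pi / 2) := by
    intro x hx
    obtain ⟨a, b⟩ := abs_le.1 hx
    constructor <;> nlinarith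
  constructor
  · have h := strictConcaveOn_cos_Icc.concaveOn.2 (key x hx) (key y hy) (sub_nonneg.2 h1) h0
      (by ring)
    simp only [smul_eq_mul] at h
    unfold ck
    refine h.trans (le_of_eq ?_)
    congr 1
    ring
  · obtain ⟨a, b⟩ := abs_le.1 hx
    obtain ⟨c, d⟩ := abs_le.1 hy
    rw [abs_le]
    constructor <;> nlinarith

/-- the impossible areas form a convex set -/
theorem Ex.seg {v0 v1 v2 v3 A B C A' B' C' : ℝ} (hv0 : 0 ≤ v0) (hv1 : 0 ≤ v1) (hv2 : 0 ≤ v2)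
    (hv3 : 0 ≤ v3) (h : Ex v0 v1 v2 v3 A B C) (h' : Ex v0 v1 v2 v3 A' B' C') (l : ℝ) (h0 : 0 ≤ l)
    (h1 : l ≤ 1) : Ex v0 v1 v2 v3 ((1 - l) * A + l * A') ((1 - l) * B + l * B')
      ((1 - l) * C + l * C') := by
  obtain ⟨d1, d2, d3, a1, a2, a3, a4, a5, a6, hf⟩ := h
  obtain ⟨e1, e2, e3, b1, b2, b3, b4, b5, b6, hg⟩ := h'
  obtain ⟨c1, c1'⟩ := ck_conc _ _ l a1 b1 h0 h1
  obtain ⟨c2, c2'⟩ := ck_conc _ _ l a2 b2 h0 h1
  obtain ⟨c3, c3'⟩ := ck_conc _ _ l a3 b3 h0 h1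
  obtain ⟨c4, c4'⟩ := ck_conc _ _ l a4 b4 h0 h1
  obtain ⟨c5, c5'⟩ := ck_conc _ _ l a5 b5 h0 h1
  obtain ⟨c6, c6'⟩ := ck_conc _ _ l a6 b6 h0 h1
  have E4 : (1 - l) * A + l * A' - ((1 - l) * d1 + l * e1) + ((1 - l) * d2 + l * e2) =
      (1 - l) * (A - d1 + d2) + l * (A' - e1 + e2) := by ring
  have E5 : (1 - l) * B + l * B' - ((1 - l) * d2 + l * e2) + ((1 - l) * d3 + l * e3) =
      (1 - l) * (B - d2 + d3) + l * (B' - e2 + e3) := by ring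
  have E6 : (1 - l) * C + l * C' - ((1 - l) * d3 + l * e3) + ((1 - l) * d1 + l * e1) =
      (1 - l) * (C - d3 + d1) + l * (C' - e3 + e1) := by ring
  refine ⟨(1 - l) * d1 + l * e1, (1 - l) * d2 + l * e2, (1 - l) * d3 + l * e3, c1', c2', c3',
    E4 ▸ c4', E5 ▸ c5', E6 ▸ c6', ?_⟩
  rw [E4, E5, E6]
  have k1 := mul_le_mul_of_nonneg_left c1 (mul_nonneg hv0 hv1)
  have k2 := mul_le_mul_of_nonneg_left c2 (mul_nonneg hv0 hv2)
  have k3 := mul_le_mul_of_nonneg_left c3 (mul_nonneg hv0 hv3)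
  have k4 := mul_le_mul_of_nonneg_left c4 (mul_nonneg hv1 hv2)
  have k5 := mul_le_mul_of_nonneg_left c5 (mul_nonneg hv2 hv3)
  have k6 := mul_le_mul_of_nonneg_left c6 (mul_nonneg hv1 hv3)
  have m1 := mul_le_mul_of_nonneg_left hf (sub_nonneg.2 h1)
  have m2 := mul_le_mul_of_nonneg_left hg h0
  have m3 : ck 1 * (v0 ^ 2 + v1 ^ 2 + v2 ^ 2 + v3 ^ 2) =
      (1 - l) * (ck 1 * (v0 ^ 2 + v1 ^ 2 + v2 ^ 2 + v3 ^ 2)) +
        l * (ck 1 * (v0 ^ 2 + v1 ^ 2 + v2 ^ 2 + v3 ^ 2)) := by ring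
  rw [m3]
  linarith

/-- the same along a line -/
theorem Ex.line {v0 v1 v2 v3 : ℝ} (hv0 : 0 ≤ v0) (hv1 : 0 ≤ v1) (hv2 : 0 ≤ v2) (hv3 : 0 ≤ v3)
    {A B C A' B' C' X Y Z : ℝ} (h : Ex v0 v1 v2 v3 A B C) (h' : Ex v0 v1 v2 v3 A' B' C')
    (lo hi t : ℝ) (h1 : lo ≤ t) (h2 : t ≤ hi) (h3 : lo < hi)
    (eX : (hi - lo) * X = (hi - t) * A + (t - lo) * A')
    (eY : (hi - lo) * Y = (hi - t) * B + (t - lo) * B')
    (eZ : (hi - lo) * Z = (hi - t) * C + (t - lo) * C') : Ex v0 v1 v2 v3 X Y Z := by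
  have hd : 0 < hi - lo := by linarith
  have h4 := Ex.seg hv0 hv1 hv2 hv3 h h' ((t - lo) / (hi - lo))
    (div_nonneg (by linarith) hd.le) ((div_le_one hd).2 (by linarith))
  have e : ∀ P P' Q : ℝ, (hi - lo) * Q = (hi - t) * P + (t - lo) * P' →
      (1 - (t - lo) / (hi - lo)) * P + (t - lo) / (hi - lo) * P' = Q := by
    intro P P' Q hQ
    have : Q = ((hi - t) * P + (t - lo) * P') / (hi - lo) := by
      rw [eq_div_iff hd.ne']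
      linarith
    rw [this]
    field_simp
    ring
  rw [e _ _ _ eX, e _ _ _ eY, e _ _ _ eZ] at h4
  exact h4

/-- a vertex -/
theorem Ex.vert {v0 v1 v2 v3 A B C : ℝ} (d1 d2 d3 : ℝ) (hv0 : 0 ≤ v0) (hv1 : 0 ≤ v1)
    (hv2 : 0 ≤ v2) (hv3 : 0 ≤ v3) (a1 : |d1| ≤ 7) (a2 : |d2| ≤ 7) (a3 : |d3| ≤ 7)
    (a4 : |A - d1 + d2| ≤ 7) (a5 : |B - d2 + d3| ≤ 7) (a6 : |C - d3 + d1| ≤ 7)
    (hf : 97493 / 100000 * (v0 ^ 2 + v1 ^ 2 + v2 ^ 2 + v3 ^ 2) ≤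
      v0 * v1 * ql (d1 ^ 2) + v0 * v2 * ql (d2 ^ 2) + v0 * v3 * ql (d3 ^ 2) +
        v1 * v2 * ql ((A - d1 + d2) ^ 2) + v2 * v3 * ql ((B - d2 + d3) ^ 2) +
        v1 * v3 * ql ((C - d3 + d1) ^ 2)) : Ex v0 v1 v2 v3 A B C := by
  refine ⟨d1, d2, d3, a1, a2, a3, a4, a5, a6, ?_⟩
  have k1 := mul_le_mul_of_nonneg_left (ck_ge d1) (mul_nonneg hv0 hv1)
  have k2 := mul_le_mul_of_nonneg_left (ck_ge d2) (mul_nonneg hv0 hv2)
  have k3 := mul_le_mul_of_nonneg_left (ck_ge d3) (mul_nonneg hv0 hv3)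
  have k4 := mul_le_mul_of_nonneg_left (ck_ge (A - d1 + d2)) (mul_nonneg hv1 hv2)
  have k5 := mul_le_mul_of_nonneg_left (ck_ge (B - d2 + d3)) (mul_nonneg hv2 hv3)
  have k6 := mul_le_mul_of_nonneg_left (ck_ge (C - d3 + d1)) (mul_nonneg hv1 hv3)
  have k7 : ck 1 * (v0 ^ 2 + v1 ^ 2 + v2 ^ 2 + v3 ^ 2) ≤
      97493 / 100000 * (v0 ^ 2 + v1 ^ 2 + v2 ^ 2 + v3 ^ 2) :=
    mul_le_mul_of_nonneg_right ck1_bd.2.le (by positivity)
  linarith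

/-- the mirror image -/
theorem Ex.neg {v0 v1 v2 v3 A B C : ℝ} (h : Ex v0 v1 v2 v3 A B C) :
    Ex v0 v1 v2 v3 (-A) (-B) (-C) := by
  obtain ⟨d1, d2, d3, a1, a2, a3, a4, a5, a6, hf⟩ := h
  have e4 : -A - -d1 + -d2 = -(A - d1 + d2) := by ring
  have e5 : -B - -d2 + -d3 = -(B - d2 + d3) := by ring
  have e6 : -C - -d3 + -d1 = -(C - d3 + d1) := by ring
  refine ⟨-d1, -d2, -d3, ?_, ?_, ?_, ?_, ?_, ?_, ?_⟩
  · rwa [abs_neg]
  · rwa [abs_neg]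
  · rwa [abs_neg]
  · rwa [e4, abs_neg]
  · rwa [e5, abs_neg]
  · rwa [e6, abs_neg]
  · rw [e4, e5, e6, ck_neg, ck_neg, ck_neg, ck_neg, ck_neg, ck_neg]
    exact hf

/-- rotation of the rim -/
theorem Ex.rot {v w A B C : ℝ} (h : Ex v w w w A B C) : Ex v w w w B C A := by
  obtain ⟨d1, d2, d3, a1, a2, a3, a4, a5, a6, hf⟩ := h
  exact ⟨d2, d3, d1, a2, a3, a1, a5, a6, a4, by linarith⟩

/-- reflection of the rim -/
theorem Ex.swap {v w A B C : ℝ} (h : Ex v w w w A B C) : Ex v w w w B A C := by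
  obtain ⟨d1, d2, d3, a1, a2, a3, a4, a5, a6, hf⟩ := h
  have e4 : B - -d3 + -d2 = B - d2 + d3 := by ring
  have e5 : A - -d2 + -d1 = A - d1 + d2 := by ring
  have e6 : C - -d1 + -d3 = C - d3 + d1 := by ring
  refine ⟨-d3, -d2, -d1, ?_, ?_, ?_, ?_, ?_, ?_, ?_⟩
  · rwa [abs_neg]
  · rwa [abs_neg]
  · rwa [abs_neg]
  · rwa [e4]
  · rwa [e5]
  · rwa [e6]
  · rw [e4, e5, e6, ck_neg, ck_neg, ck_neg]
    linarith

/-! ## vectors -/

theorem ck_shift (x : ℝ) (n : ℤ) : ck (x + 28 * n) = ck x := by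
  unfold ck
  rw [← Real.cos_add_int_mul_two_pi (x * (Real.pi / 14)) n]
  congr 1
  ring

/-- four close vectors with impossible areas -/
theorem Ex.elim {E : Type} [NormedAddCommGroup E] [InnerProductSpace ℂ E] {h a b c : E}
    (hh : ‖h‖ = 1) (ha : ‖a‖ = 1) (hb : ‖b‖ = 1) (hc : ‖c‖ = 1) (k1 : Ad3 h a) (k2 : Ad3 h b)
    (k3' : Ad3 h c) (k4 : Ad3 a b) (k5 : Ad3 b c) (k6 : Ad3 a c) {v0 v1 v2 v3 x y z A B C : ℝ}
    (hv0 : 0 ≤ v0) (hv1 : 0 ≤ v1) (hv2 : 0 ≤ v2) (hv3 : 0 ≤ v3) (hv : 0 < v0)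
    (ex : ar h a b = x * (Real.pi / 14)) (ey : ar h b c = y * (Real.pi / 14))
    (ez : ar h a c = -(z * (Real.pi / 14))) (L M N : ℤ) (eA : A = 14 - x + 28 * L)
    (eB : B = 14 - y + 28 * M) (eC : C = 14 - z + 28 * N) (hE : Ex v0 v1 v2 v3 A B C) :
    False := by
  obtain ⟨d1, d2, d3, a1, a2, a3, a4, a5, a6, hf⟩ := hE
  have hp := Real.pi_pos
  have cn : ∀ x : ℝ, |x| ≤ 7 → 0 ≤ ck x := fun x hx =>
    ck_nonneg (abs_le.1 hx).1 (abs_le.1 hx).2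
  have f1 : ∀ x : ℝ, Real.cos (x * (Real.pi / 14)) = ck x := fun _ => rfl
  have g4 : ck (14 - x - d1 + d2) = ck (A - d1 + d2) := by
    rw [← ck_shift (14 - x - d1 + d2) L, eA]
    congr 1
    ring
  have g5 : ck (14 - y - d2 + d3) = ck (B - d2 + d3) := by
    rw [← ck_shift (14 - y - d2 + d3) M, eB]
    congr 1
    ring
  have g6 : ck (14 + z - d1 + d3) = ck (C - d3 + d1) := by
    rw [← ck_neg (14 + z - d1 + d3), ← ck_shift (-(14 + z - d1 + d3)) (1 + N), eC]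
    congr 1
    push_cast
    ring
  have hs : 0 < ck 1 * (v0 ^ 2 + v1 ^ 2 + v2 ^ 2 + v3 ^ 2) :=
    mul_pos (ck_pos (by norm_num) (by norm_num)) (by positivity)
  have key := cert4 k3 k3_pos h a b c hh ha hb hc k1 k2 k3' k4 k5 k6 v0 v1 v2 v3
    (d1 * (Real.pi / 14)) (d2 * (Real.pi / 14)) (d3 * (Real.pi / 14))
    ((14 - x - d1 + d2) * (Real.pi / 14)) ((14 - y - d2 + d3) * (Real.pi / 14))
    ((14 + z - d1 + d3) * (Real.pi / 14)) hv0 hv1 hv2 hv3 (by rw [ex]; ring) (by rw [ey]; ring)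
    (by rw [ez]; ring) (by rw [f1]; exact cn _ a1) (by rw [f1]; exact cn _ a2)
    (by rw [f1]; exact cn _ a3) (by rw [f1, g4]; exact cn _ a4) (by rw [f1, g5]; exact cn _ a5)
    (by rw [f1, g6]; exact cn _ a6) (by
      rw [f1, f1, f1, f1, f1, f1, g4, g5, g6]
      exact hs.trans_le hf)
  rw [f1, f1, f1, f1, f1, f1, g4, g5, g6] at key
  have hk : Real.sqrt k3 * ck 1 = 1 / 2 := by
    rw [← sqrt_k3]
    unfold ck
    rw [one_mul]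
  have h2 := mul_le_mul_of_nonneg_left hf (mul_nonneg (by norm_num : (0 : ℝ) ≤ 2)
    (Real.sqrt_nonneg k3))
  have h3 : 2 * Real.sqrt k3 * (ck 1 * (v0 ^ 2 + v1 ^ 2 + v2 ^ 2 + v3 ^ 2)) =
      v0 ^ 2 + v1 ^ 2 + v2 ^ 2 + v3 ^ 2 := by
    linear_combination 2 * (v0 ^ 2 + v1 ^ 2 + v2 ^ 2 + v3 ^ 2) * hk
  linarith

end Pool.Agent.H81.CP
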