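import Pool.Agent.H81.CP.Ex

/-!
MP_6a7a6f_gt, the level of `rad 3`: two families of impossible areas.
-/

set_option autoImplicit false

open Pool.Agent.H58.FL Pool.Agent.H59 Pool.Agent.H48.FR Pool.Agent.H58.FN Pool.Agent.H59.CPT

namespace Pool.Agent.H81.CP

/-! ## monopoles with a small area -/

theorem m_3 : Ex 3 2 2 2 3 (97 / 10) (43 / 10) := by
  refine Ex.vert (-(1 / 5)) (29 / 20) (-(5 / 4)) ?_ ?_ ?_ ?_ ?_ ?_ ?_ ?_ ?_ ?_ ?_ <;>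
    norm_num [abs_le, ql]

theorem m_4 : Ex 3 2 2 2 3 (271 / 30) (169 / 30) := by
  refine Ex.vert (-(11 / 30)) (6 / 5) (-(5 / 6)) ?_ ?_ ?_ ?_ ?_ ?_ ?_ ?_ ?_ ?_ ?_ <;>
    norm_num [abs_le, ql]

theorem m_v (w : ℝ) (h1 : 3 ≤ w) (h2 : w ≤ 11 / 3) :
    Ex 3 2 2 2 (14 - 11) (14 - (w + 13 / 10)) (14 - (157 / 10 - 2 * w)) :=
  Ex.line (by norm_num) (by norm_num) (by norm_num) (by norm_num) m_3 m_4 3 (11 / 3) w h1 h2
    (by norm_num) (by linarith) (by linarith) (by linarith)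

theorem m_e1 (w y z : ℝ) (h1 : 3 ≤ w) (h2 : w ≤ 11 / 3) (hs : y + z = 17 - w)
    (hy : w + 13 / 10 ≤ y) (hz : w + 13 / 10 ≤ z) :
    Ex 3 2 2 2 (14 - 11) (14 - y) (14 - z) := by
  have v1 := m_v w h1 h2
  have v2 := v1.swap.rot
  exact Ex.line (by norm_num) (by norm_num) (by norm_num) (by norm_num) v1 v2 (w + 13 / 10)
    (157 / 10 - 2 * w) y hy (by linarith) (by linarith) (by ring) (by ring)
    (by rw [show z = 17 - w - y by linarith]; ring)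

theorem m_e2 (w x y : ℝ) (h1 : 3 ≤ w) (h2 : w ≤ 11 / 3) (hs : x + y = 11 + (157 / 10 - 2 * w))
    (hx : x ≤ 11) (hy : y ≤ 11) :
    Ex 3 2 2 2 (14 - x) (14 - y) (14 - (w + 13 / 10)) := by
  have v2 := (m_v w h1 h2).swap.rot
  exact Ex.line (by norm_num) (by norm_num) (by norm_num) (by norm_num) v2.swap v2
    (157 / 10 - 2 * w) 11 x (by linarith) hx (by linarith) (by ring)
    (by rw [show y = 11 + (157 / 10 - 2 * w) - x by linarith]; ring) (by ring)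

/-- The areas `x, y, z` at the hub, `w` is the fourth area of the monopole. -/
theorem mono_ex (w x y z : ℝ) (h1 : 3 ≤ w) (h2 : w ≤ 11 / 3) (hs : w + x + y + z = 28)
    (x1 : w + 13 / 10 ≤ x) (x2 : x ≤ 11) (y1 : w + 13 / 10 ≤ y) (y2 : y ≤ 11)
    (z1 : w + 13 / 10 ≤ z) (z2 : z ≤ 11) : Ex 3 2 2 2 (14 - x) (14 - y) (14 - z) := by
  rcases le_total z (157 / 10 - 2 * w) with hz | hz
  · have a1 := m_e1 w (17 - w - z) z h1 h2 (by ring) (by linarith) z1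
    exact Ex.line (by norm_num) (by norm_num) (by norm_num) (by norm_num) a1.swap a1
      (17 - w - z) 11 x (by linarith) x2 (by linarith) (by ring)
      (by rw [show y = 28 - w - x - z by linarith]; ring) (by ring)
  · have a1 := (m_e2 w z (28 - w - z - (w + 13 / 10)) h1 h2 (by ring) z2 (by linarith)).rot
    exact Ex.line (by norm_num) (by norm_num) (by norm_num) (by norm_num) a1.swap a1
      (w + 13 / 10) (28 - w - z - (w + 13 / 10)) x x1 (by linarith) (by linarith) (by ring)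
      (by rw [show y = 28 - w - x - z by linarith]; ring) (by ring)

/-! ## quadrilaterals without monopole -/

theorem q_1 : Ex 5 6 (11 / 2) (19 / 5) (97 / 10) (173 / 20) (-11) := by
  refine Ex.vert (47 / 10) (-(13 / 10)) (-(59 / 10)) ?_ ?_ ?_ ?_ ?_ ?_ ?_ ?_ ?_ ?_ ?_ <;>
    norm_num [abs_le, ql]

theorem q_2 : Ex 5 6 (11 / 2) (19 / 5) (97 / 10) (173 / 20) (-9) := by
  refine Ex.vert (87 / 20) (-(5 / 4)) (-(99 / 20)) ?_ ?_ ?_ ?_ ?_ ?_ ?_ ?_ ?_ ?_ ?_ <;>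
    norm_num [abs_le, ql]

theorem q_3 : Ex 5 6 (11 / 2) (19 / 5) (97 / 10) (73 / 10) (-11) := by
  refine Ex.vert (97 / 20) (-(29 / 20)) (-(109 / 20)) ?_ ?_ ?_ ?_ ?_ ?_ ?_ ?_ ?_ ?_ ?_ <;>
    norm_num [abs_le, ql]

theorem q_4 : Ex 5 6 (11 / 2) (19 / 5) (97 / 10) (73 / 10) (-9) := by
  refine Ex.vert (22 / 5) (-(29 / 20)) (-(93 / 20)) ?_ ?_ ?_ ?_ ?_ ?_ ?_ ?_ ?_ ?_ ?_ <;>
    norm_num [abs_le, ql]

theorem q_5 : Ex 5 6 (11 / 2) (19 / 5) 3 (307 / 20) (-11) := by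
  refine Ex.vert (57 / 20) (3 / 2) (-7) ?_ ?_ ?_ ?_ ?_ ?_ ?_ ?_ ?_ ?_ ?_ <;>
    norm_num [abs_le, ql]

theorem q_6 : Ex 5 6 (11 / 2) (19 / 5) 3 (307 / 20) (-9) := by
  refine Ex.vert (11 / 5) (27 / 20) (-7) ?_ ?_ ?_ ?_ ?_ ?_ ?_ ?_ ?_ ?_ ?_ <;>
    norm_num [abs_le, ql]

theorem q_7 : Ex 5 6 (11 / 2) (19 / 5) 3 14 (-11) := by
  refine Ex.vert (14 / 5) (7 / 5) (-7) ?_ ?_ ?_ ?_ ?_ ?_ ?_ ?_ ?_ ?_ ?_ <;>
    norm_num [abs_le, ql]

theorem q_8 : Ex 5 6 (11 / 2) (19 / 5) 3 14 (-9) := by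
  refine Ex.vert (21 / 10) (21 / 20) (-7) ?_ ?_ ?_ ?_ ?_ ?_ ?_ ?_ ?_ ?_ ?_ <;>
    norm_num [abs_le, ql]

theorem quad_ex (t s p : ℝ) (t1 : 43 / 10 ≤ t) (t2 : t ≤ 11) (s1 : 193 / 20 ≤ s) (s2 : s ≤ 11)
    (p1 : 3 ≤ p) (p2 : p ≤ 5) :
    Ex 5 6 (11 / 2) (19 / 5) (14 - t) (14 - (s - t)) (14 - (-p) + 28 * (-1 : ℤ)) := by
  have n : ∀ {A B C A' B' C' X Y Z : ℝ} (_ : Ex 5 6 (11 / 2) (19 / 5) A B C)
      (_ : Ex 5 6 (11 / 2) (19 / 5) A' B' C') (lo hi t : ℝ) (_ : lo ≤ t) (_ : t ≤ hi)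
      (_ : lo < hi) (_ : (hi - lo) * X = (hi - t) * A + (t - lo) * A')
      (_ : (hi - lo) * Y = (hi - t) * B + (t - lo) * B')
      (_ : (hi - lo) * Z = (hi - t) * C + (t - lo) * C'), Ex 5 6 (11 / 2) (19 / 5) X Y Z :=
    fun h h' lo hi t a b c d e f =>
      Ex.line (by norm_num) (by norm_num) (by norm_num) (by norm_num) h h' lo hi t a b c d e f
  have a1 : Ex 5 6 (11 / 2) (19 / 5) (97 / 10) (173 / 20) (p - 14) :=
    n q_1 q_2 3 5 p p1 p2 (by norm_num) (by ring) (by ring) (by ring)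
  have a2 : Ex 5 6 (11 / 2) (19 / 5) (97 / 10) (73 / 10) (p - 14) :=
    n q_3 q_4 3 5 p p1 p2 (by norm_num) (by ring) (by ring) (by ring)
  have a3 : Ex 5 6 (11 / 2) (19 / 5) 3 (307 / 20) (p - 14) :=
    n q_5 q_6 3 5 p p1 p2 (by norm_num) (by ring) (by ring) (by ring)
  have a4 : Ex 5 6 (11 / 2) (19 / 5) 3 14 (p - 14) :=
    n q_7 q_8 3 5 p p1 p2 (by norm_num) (by ring) (by ring) (by ring)
  have b1 : Ex 5 6 (11 / 2) (19 / 5) (97 / 10) (14 - (s - 43 / 10)) (p - 14) :=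
    n a1 a2 (193 / 20) 11 s s1 s2 (by norm_num) (by ring) (by ring) (by ring)
  have b2 : Ex 5 6 (11 / 2) (19 / 5) 3 (14 - (s - 11)) (p - 14) :=
    n a3 a4 (193 / 20) 11 s s1 s2 (by norm_num) (by ring) (by ring) (by ring)
  exact n b1 b2 (43 / 10) 11 t t1 t2 (by norm_num) (by ring) (by ring) (by push_cast; ring)

end Pool.Agent.H81.CP
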