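import Pool.Agent.H81.CP.Cert
import Pool.Agent.H59.CPT.Num
import Pool.Agent.H58.FN.Targets

/-!
MP_6a7a6f_gt, the level of `rad 3`: values of the cosine, concavity.
-/

set_option autoImplicit false

open Pool.Agent.H58.FL Pool.Agent.H59 Pool.Agent.H48.FR Pool.Agent.H58.FN Pool.Agent.H59.CPT

namespace Pool.Agent.H81.CP

/-- concavity of the cosine -/
theorem jen {n : ℕ} (a x : Fin n → ℝ) (ha : ∀ i, 0 ≤ a i) (hs : ∑ i, a i = 1)
    (hx : ∀ i, -(Real.pi / 2) ≤ x i ∧ x i ≤ Real.pi / 2) :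
    ∑ i, a i * Real.cos (x i) ≤ Real.cos (∑ i, a i * x i) := by
  have h := strictConcaveOn_cos_Icc.concaveOn.le_map_sum (t := Finset.univ) (w := a) (p := x)
    (fun i _ => ha i) hs (fun i _ => ⟨(hx i).1, (hx i).2⟩)
  simpa [smul_eq_mul] using h

theorem jen4 (a0 a1 a2 a3 x0 x1 x2 x3 : ℝ) (h0 : 0 ≤ a0) (h1 : 0 ≤ a1) (h2 : 0 ≤ a2)
    (h3 : 0 ≤ a3) (hs : a0 + a1 + a2 + a3 = 1) (hx0 : |x0| ≤ Real.pi / 2)
    (hx1 : |x1| ≤ Real.pi / 2) (hx2 : |x2| ≤ Real.pi / 2) (hx3 : |x3| ≤ Real.pi / 2) :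
    a0 * Real.cos x0 + a1 * Real.cos x1 + a2 * Real.cos x2 + a3 * Real.cos x3 ≤
      Real.cos (a0 * x0 + a1 * x1 + a2 * x2 + a3 * x3) := by
  have h := jen ![a0, a1, a2, a3] ![x0, x1, x2, x3]
    (by
      intro i
      fin_cases i
      · exact h0
      · exact h1
      · exact h2
      · exact h3)
    (by simp [Fin.sum_univ_four]; exact hs)
    (by
      intro i
      fin_cases i
      · exact abs_le.1 hx0
      · exact abs_le.1 hx1
      · exact abs_le.1 hx2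
      · exact abs_le.1 hx3)
  simpa [Fin.sum_univ_four] using h

/-- the multiples of `π / 14` -/
noncomputable def ck (k : ℝ) : ℝ := Real.cos (k * (Real.pi / 14))

theorem ck2 : ck 2 = c7 := by
  unfold ck c7
  congr 1
  ring

theorem ck4 : ck 4 = 2 * c7 ^ 2 - 1 := by
  rw [← ck2]
  unfold ck
  rw [← Real.cos_two_mul]
  congr 1
  ring

theorem ck6 : ck 6 = 4 * c7 ^ 3 - 3 * c7 := by
  rw [← ck2]
  unfold ck
  rw [← Real.cos_three_mul]
  congr 1
  ring

theorem ck7 : ck 7 = 0 := by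
  unfold ck
  rw [← Real.cos_pi_div_two]
  congr 1
  ring

theorem ck_sq (k : ℝ) : ck k ^ 2 = (1 + ck (2 * k)) / 2 := by
  unfold ck
  have h := Real.cos_two_mul (k * (Real.pi / 14))
  have e : 2 * k * (Real.pi / 14) = 2 * (k * (Real.pi / 14)) := by ring
  rw [e, h]
  ring

theorem ck_compl (k : ℝ) : ck (14 - k) = -ck k := by
  unfold ck
  rw [← Real.cos_pi_sub]
  congr 1
  ring

theorem ck_neg (k : ℝ) : ck (-k) = ck k := by
  unfold ck
  rw [← Real.cos_neg]
  congr 1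
  ring

theorem ck_add (j k : ℝ) : 2 * ck j * ck k = ck (j + k) + ck (j - k) := by
  unfold ck
  have h1 := Real.cos_add (j * (Real.pi / 14)) (k * (Real.pi / 14))
  have h2 := Real.cos_sub (j * (Real.pi / 14)) (k * (Real.pi / 14))
  have e1 : (j + k) * (Real.pi / 14) = j * (Real.pi / 14) + k * (Real.pi / 14) := by ring
  have e2 : (j - k) * (Real.pi / 14) = j * (Real.pi / 14) - k * (Real.pi / 14) := by ring
  rw [e1, e2, h1, h2]
  ring

theorem ck_pos {k : ℝ} (h1 : -7 < k) (h2 : k < 7) : 0 < ck k := by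
  have hp := Real.pi_pos
  unfold ck
  apply Real.cos_pos_of_mem_Ioo
  constructor
  · nlinarith
  · nlinarith

theorem ck_nonneg {k : ℝ} (h1 : -7 ≤ k) (h2 : k ≤ 7) : 0 ≤ ck k := by
  have hp := Real.pi_pos
  unfold ck
  apply Real.cos_nonneg_of_mem_Icc
  constructor
  · nlinarith
  · nlinarith

theorem ck1_bd : 97492 / 100000 < ck 1 ∧ ck 1 < 97493 / 100000 := by
  have h := ck_sq 1
  rw [show (2 : ℝ) * 1 = 2 by norm_num, ck2] at h
  have h0 := ck_pos (k := 1) (by norm_num) (by norm_num)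
  have h1 := c7_gt
  have h2 := c7_lt
  constructor <;> nlinarith

theorem ck3_bd : 7818 / 10000 < ck 3 ∧ ck 3 < 7819 / 10000 := by
  have h := ck_sq 3
  rw [show (2 : ℝ) * 3 = 6 by norm_num, ck6] at h
  have h0 := ck_pos (k := 3) (by norm_num) (by norm_num)
  have h1 := c7_gt
  have h2 := c7_lt
  have h3 : (22244 : ℝ) / 100000 < 4 * c7 ^ 3 - 3 * c7 := by
    have h5 : (90096 / 100000) ^ 2 < c7 ^ 2 := by nlinarith
    nlinarith
  have h4 : 4 * c7 ^ 3 - 3 * c7 < 2226 / 10000 := by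
    have h5 : c7 ^ 2 < (90097 / 100000) ^ 2 := by nlinarith
    nlinarith
  constructor <;> nlinarith

theorem ck4_bd : 62345 / 100000 < ck 4 ∧ ck 4 < 6235 / 10000 := by
  have h1 := c7_gt
  have h2 := c7_lt
  rw [ck4]
  constructor <;> nlinarith

theorem ck5_bd : 43387 / 100000 < ck 5 ∧ ck 5 < 434 / 1000 := by
  have h := ck_sq 5
  have e : ck (2 * 5) = -ck 4 := by
    rw [← ck_compl]
    norm_num
  rw [e] at h
  have h0 := ck_pos (k := 5) (by norm_num) (by norm_num)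
  have h1 := ck4_bd
  constructor <;> nlinarith

end Pool.Agent.H81.CP
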