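import Pool.Agent.H81.CP.Trig

/-!
MP_6a7a6f_gt, the level of `rad 3`: the wheels with three spokes.
-/

set_option autoImplicit false

open Pool.Agent.H58.FL Pool.Agent.H59 Pool.Agent.H48.FR Pool.Agent.H58.FN Pool.Agent.H59.CPT

namespace Pool.Agent.H81.CP

/-- W33: the wheels with three spokes. -/
def T_W33 : Prop := ∀ (E : Type) [NormedAddCommGroup E] [InnerProductSpace ℂ E] (p : Fin 4 → E),
  Cl3 p → ar (p 0) (p 1) (p 2) + ar (p 0) (p 2) (p 3) + ar (p 0) (p 3) (p 1) <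
    25 * Real.pi / 14

theorem ck23 : (988 : ℝ) / 1000 ≤ ck (2 / 3) := by
  have h1 := Real.one_sub_sq_div_two_le_cos (x := 2 / 3 * (Real.pi / 14))
  have h2 := Real.pi_lt_d4
  have h3 : Real.pi ^ 2 ≤ (31416 / 10000) ^ 2 :=
    pow_le_pow_left₀ Real.pi_pos.le (by linarith) 2
  unfold ck
  linarith

theorem ck43 : (955 : ℝ) / 1000 ≤ ck (4 / 3) := by
  have h1 := Real.one_sub_sq_div_two_le_cos (x := 4 / 3 * (Real.pi / 14))
  have h2 := Real.pi_lt_d4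
  have h3 : Real.pi ^ 2 ≤ (31416 / 10000) ^ 2 :=
    pow_le_pow_left₀ Real.pi_pos.le (by linarith) 2
  unfold ck
  linarith

theorem w3_v3 {A C D F U V : ℝ} (k1 : 97492 / 100000 < A ∧ A < 97493 / 100000)
    (k3' : 7818 / 10000 < C) (n23 : 988 / 1000 ≤ U)
    (n43 : 955 / 1000 ≤ V) (i2 : 2 * C * D = A) (i3 : 2 * D * F = A - F) :
    6 * A ≤ 2 * C + 2 * C * (2 * D) * V + 2 * C * U + 2 * D * F + F := by
  have e : 2 * C * (2 * D) * V = 2 * A * V := by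
    rw [← i2]; ring
  rw [e, i3]
  have h1 : A * (955 / 1000) ≤ A * V := mul_le_mul_of_nonneg_left n43 (by linarith)
  have h2 : C * (988 / 1000) ≤ C * U := mul_le_mul_of_nonneg_left n23 (by linarith)
  linarith

/-- The certificate: `x, y, z` are the areas at the hub in units of `π / 14`, `z` is the
smallest. -/
theorem w3_core (x y z : ℝ) (hx : x ≤ 11) (hy : y ≤ 11) (hzx : z ≤ x) (hzy : z ≤ y)
    (hs : 25 ≤ x + y + z) : ∃ d1 d2 d3 : ℝ,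
    0 ≤ ck d1 ∧ 0 < ck d2 ∧ 0 ≤ ck d3 ∧ 0 ≤ ck (14 - x - d1 + d2) ∧
    0 ≤ ck (14 - y - d2 + d3) ∧ 0 ≤ ck (14 - z - d3 + d1) ∧
    6 * ck 1 ≤ 2 * ck 3 * ck d1 + 2 * ck 3 * (2 * ck 4) * ck d2 + 2 * ck 3 * ck d3 +
      2 * ck 4 * ck (14 - x - d1 + d2) + 2 * ck 4 * ck (14 - y - d2 + d3) +
      ck (14 - z - d3 + d1) := by
  have hp := Real.pi_pos
  obtain ⟨s, hsd⟩ : ∃ s, s = 11 - x := ⟨_, rfl⟩
  obtain ⟨t, htd⟩ : ∃ t, t = 11 - y := ⟨_, rfl⟩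
  obtain ⟨r, hrd⟩ : ∃ r, r = z - 3 := ⟨_, rfl⟩
  have hs0 : 0 ≤ s := by linarith
  have ht0 : 0 ≤ t := by linarith
  have hr0 : s + t ≤ r := by linarith
  have hr1 : r + (s + t) / 2 ≤ 8 := by linarith
  obtain ⟨a1, ha1⟩ : ∃ a, a = (r - s - t) / 8 := ⟨_, rfl⟩
  obtain ⟨a2, ha2⟩ : ∃ a, a = 3 * s / 16 := ⟨_, rfl⟩
  obtain ⟨a3, ha3⟩ : ∃ a, a = 3 * t / 16 := ⟨_, rfl⟩
  obtain ⟨a0, ha0⟩ : ∃ a, a = 1 - a1 - a2 - a3 := ⟨_, rfl⟩
  have p1 : 0 ≤ a1 := by linarith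
  have p2 : 0 ≤ a2 := by linarith
  have p3 : 0 ≤ a3 := by linarith
  have p0 : 0 ≤ a0 := by linarith
  have hsum : a0 + a1 + a2 + a3 = 1 := by linarith
  have hJ : ∀ x0 x1 x2 x3 X : ℝ, |x0| ≤ 7 → |x1| ≤ 7 → |x2| ≤ 7 → |x3| ≤ 7 →
      X = a0 * x0 + a1 * x1 + a2 * x2 + a3 * x3 →
      a0 * ck x0 + a1 * ck x1 + a2 * ck x2 + a3 * ck x3 ≤ ck X := by
    intro x0 x1 x2 x3 X b0 b1 b2 b3 hX
    have key : ∀ x : ℝ, |x| ≤ 7 → |x * (Real.pi / 14)| ≤ Real.pi / 2 := by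
      intro x hx
      rw [abs_mul, abs_of_pos (by positivity : 0 < Real.pi / 14)]
      nlinarith
    have h := jen4 a0 a1 a2 a3 _ _ _ _ p0 p1 p2 p3 hsum (key x0 b0) (key x1 b1) (key x2 b2)
      (key x3 b3)
    unfold ck
    rw [hX]
    refine h.trans (le_of_eq ?_)
    congr 1
    ring
  refine ⟨-2 + 3 * s / 8 + t / 4, (t - s) / 4, 2 - s / 4 - 3 * t / 8, ?_⟩
  obtain ⟨q1, e1⟩ : ∃ q, q = -2 + 3 * s / 8 + t / 4 := ⟨_, rfl⟩
  obtain ⟨q2, e2⟩ : ∃ q, q = (t - s) / 4 := ⟨_, rfl⟩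
  obtain ⟨q3, e3⟩ : ∃ q, q = 2 - s / 4 - 3 * t / 8 := ⟨_, rfl⟩
  obtain ⟨q4, e4⟩ : ∃ q, q = 14 - x - q1 + q2 := ⟨_, rfl⟩
  obtain ⟨q5, e5⟩ : ∃ q, q = 14 - y - q2 + q3 := ⟨_, rfl⟩
  obtain ⟨q6, e6⟩ : ∃ q, q = 14 - z - q3 + q1 := ⟨_, rfl⟩
  rw [← e1, ← e2, ← e3, ← e4, ← e5, ← e6]
  have s16 : s ≤ 16 / 3 := by linarith
  have t16 : t ≤ 16 / 3 := by linarith
  have r8 : r ≤ 8 := by linarith
  -- the six edges
  have j1 := hJ (-2) (-2) 0 (-(2 / 3)) q1 (by norm_num) (by norm_num) (by norm_num)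
    (by norm_num [abs_le]) (by rw [e1]; linarith)
  have j2 := hJ 0 0 (-(4 / 3)) (4 / 3) q2 (by norm_num) (by norm_num) (by norm_num [abs_le])
    (by norm_num [abs_le]) (by rw [e2]; linarith)
  have j3 := hJ 2 2 (2 / 3) 0 q3 (by norm_num) (by norm_num) (by norm_num [abs_le])
    (by norm_num) (by rw [e3]; linarith)
  have j4 := hJ 5 5 7 5 q4 (by norm_num) (by norm_num) (by norm_num)
    (by norm_num) (by rw [e4, e1, e2]; linarith)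
  have j5 := hJ 5 5 5 7 q5 (by norm_num) (by norm_num) (by norm_num)
    (by norm_num) (by rw [e5, e2, e3]; linarith)
  have j6 := hJ 7 (-1) 5 5 q6 (by norm_num) (by norm_num) (by norm_num)
    (by norm_num) (by rw [e6, e1, e3]; linarith)
  rw [ck_neg, ck_neg] at j1
  rw [ck_neg] at j2 j6
  rw [ck7] at j4 j5 j6
  have c0 : ck 0 = 1 := by
    unfold ck
    simp
  rw [c0] at j1 j2 j3
  refine ⟨ck_nonneg (by rw [e1]; linarith) (by rw [e1]; linarith),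
    ck_pos (by rw [e2]; linarith) (by rw [e2]; linarith),
    ck_nonneg (by rw [e3]; linarith) (by rw [e3]; linarith),
    ck_nonneg (by rw [e4, e1, e2]; linarith) (by rw [e4, e1, e2]; linarith),
    ck_nonneg (by rw [e5, e2, e3]; linarith) (by rw [e5, e2, e3]; linarith),
    ck_nonneg (by rw [e6, e1, e3]; linarith) (by rw [e6, e1, e3]; linarith), ?_⟩
  have k1 := ck1_bd
  have k3' := ck3_bd
  have k4 := ck4_bd
  have k5 := ck5_bd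
  have k2 : ck 2 = c7 := ck2
  -- the values at the vertices
  have i1 : 2 * ck 3 * ck 2 = ck 5 + ck 1 := by
    rw [ck_add]; norm_num
  have i2 : 2 * ck 3 * ck 4 = ck 1 := by
    rw [ck_add]; norm_num [ck7, ck_neg]
  have i3 : 2 * ck 4 * ck 5 = ck 1 - ck 5 := by
    rw [ck_add]
    have h1 : ck (4 + 5) = -ck 5 := by
      rw [← ck_compl]; norm_num
    have h2 : ck (4 - 5) = ck 1 := by
      rw [← ck_neg]; norm_num
    rw [h1, h2]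
    ring
  have n23 := ck23
  have n43 := ck43
  obtain ⟨A, hA⟩ : ∃ A, A = ck 1 := ⟨_, rfl⟩
  obtain ⟨C, hC⟩ : ∃ A, A = ck 3 := ⟨_, rfl⟩
  obtain ⟨D, hD⟩ : ∃ A, A = ck 4 := ⟨_, rfl⟩
  obtain ⟨F, hF⟩ : ∃ A, A = ck 5 := ⟨_, rfl⟩
  obtain ⟨G, hG⟩ : ∃ A, A = ck 2 := ⟨_, rfl⟩
  obtain ⟨U, hU⟩ : ∃ A, A = ck (2 / 3) := ⟨_, rfl⟩
  obtain ⟨V, hV⟩ : ∃ A, A = ck (4 / 3) := ⟨_, rfl⟩
  rw [← hA] at k1 i1 i2 i3 j6 ⊢
  rw [← hC] at k3' i1 i2 ⊢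
  rw [← hD] at k4 i2 i3 ⊢
  rw [← hF] at k5 i1 i3 j4 j5 j6
  rw [← hG] at i1 j1 j3
  rw [← hU] at n23 j1 j3
  rw [← hV] at n43 j2
  have m1 := mul_le_mul_of_nonneg_left j1 (by linarith : 0 ≤ 2 * C)
  have m2 := mul_le_mul_of_nonneg_left j2 (by
    have : 0 ≤ C * D := mul_nonneg (by linarith) (by linarith)
    linarith : 0 ≤ 2 * C * (2 * D))
  have m3 := mul_le_mul_of_nonneg_left j3 (by linarith : 0 ≤ 2 * C)
  have m4 := mul_le_mul_of_nonneg_left j4 (by linarith : 0 ≤ 2 * D)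
  have m5 := mul_le_mul_of_nonneg_left j5 (by linarith : 0 ≤ 2 * D)
  -- the value at the third and the fourth vertex
  have hV3 := w3_v3 k1 k3'.1 n23 n43 i2 i3
  have w0 : a0 * (6 * A) + a1 * (7 * A) + (a2 + a3) * (6 * A) ≤
      2 * C * (a0 * G + a1 * G + a2 * 1 + a3 * U) +
      2 * C * (2 * D) * (a0 * 1 + a1 * 1 + a2 * V + a3 * V) +
      2 * C * (a0 * G + a1 * G + a2 * U + a3 * 1) +
      2 * D * (a0 * F + a1 * F + a2 * 0 + a3 * F) + 2 * D * (a0 * F + a1 * F + a2 * F + a3 * 0) +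
      (a0 * 0 + a1 * A + a2 * F + a3 * F) := by
    have z2 := mul_le_mul_of_nonneg_left hV3 (add_nonneg p2 p3)
    have z0 : a0 * (6 * A) = 2 * C * (a0 * G) + 2 * C * (2 * D) * a0 + 2 * C * (a0 * G) +
        2 * D * (a0 * F) + 2 * D * (a0 * F) := by
      linear_combination (-2 * a0) * i1 - 2 * a0 * i2 - 2 * a0 * i3
    have z1 : a1 * (7 * A) = 2 * C * (a1 * G) + 2 * C * (2 * D) * a1 + 2 * C * (a1 * G) +
        2 * D * (a1 * F) + 2 * D * (a1 * F) + a1 * A := by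
      linear_combination (-2 * a1) * i1 - 2 * a1 * i2 - 2 * a1 * i3
    linarith
  have hA1 : 0 ≤ a1 * A := mul_nonneg p1 (by linarith)
  have hfin : 6 * A = a0 * (6 * A) + a1 * (6 * A) + (a2 + a3) * (6 * A) := by
    rw [← add_mul, ← add_mul, ← add_assoc, hsum, one_mul]
  linarith

theorem cos_sw (a d e : ℝ) : Real.cos (Real.pi + a - e + d) = Real.cos (Real.pi - a - d + e) := by
  rw [← Real.cos_two_pi_sub]
  congr 1
  ring

/-- the case that the last area is the smallest -/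
theorem w3_aux {E : Type} [NormedAddCommGroup E] [InnerProductSpace ℂ E] (h a b c : E)
    (hh : ‖h‖ = 1) (ha : ‖a‖ = 1) (hb : ‖b‖ = 1) (hc : ‖c‖ = 1) (ka : Ad3 h a) (kb : Ad3 h b)
    (kc : Ad3 h c) (kab : Ad3 a b) (kbc : Ad3 b c) (kca : Ad3 c a)
    (hx : ar h a b ≤ 11 * Real.pi / 14) (hy : ar h b c ≤ 11 * Real.pi / 14)
    (sx : ar h b a = -ar h a b) (sy : ar h c b = -ar h b c) (sz : ar h a c = -ar h c a)
    (h1 : ar h c a ≤ ar h a b) (h2 : ar h c a ≤ ar h b c) :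
    ar h a b + ar h b c + ar h c a < 25 * Real.pi / 14 := by
  have hp := Real.pi_pos
  by_contra hcon
  push Not at hcon
  obtain ⟨u, hu⟩ : ∃ u, u = Real.pi / 14 := ⟨_, rfl⟩
  have hu0 : 0 < u := by rw [hu]; positivity
  have hpu : Real.pi = 14 * u := by rw [hu]; ring
  obtain ⟨x, hxd⟩ : ∃ x, x = ar h a b / u := ⟨_, rfl⟩
  obtain ⟨y, hyd⟩ : ∃ y, y = ar h b c / u := ⟨_, rfl⟩
  obtain ⟨z, hzd⟩ : ∃ z, z = ar h c a / u := ⟨_, rfl⟩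
  have ex : ar h a b = x * u := by rw [hxd]; field_simp
  have ey : ar h b c = y * u := by rw [hyd]; field_simp
  have ez : ar h c a = z * u := by rw [hzd]; field_simp
  rw [ex, ey, ez, hpu] at hcon
  rw [ex, hpu] at hx
  rw [ey, hpu] at hy
  rw [ex, ez] at h1
  rw [ey, ez] at h2
  obtain ⟨d1, d2, d3, g1, g2, g3, g4, g5, g6, hf⟩ := w3_core x y z
    (le_of_mul_le_mul_right (by linarith) hu0) (le_of_mul_le_mul_right (by linarith) hu0)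
    (le_of_mul_le_mul_right h1 hu0) (le_of_mul_le_mul_right h2 hu0)
    (le_of_mul_le_mul_right (by linarith : 25 * u ≤ (x + y + z) * u) hu0)
  have nz : ∀ {a b : E}, Ad3 a b → inner ℂ a b ≠ 0 := by
    intro a b hab h0
    unfold Ad3 at hab
    rw [h0, norm_zero] at hab
    have := k3_pos
    norm_num at hab
    linarith
  have rt : ∀ {a b : E}, Ad3 a b → Real.sqrt k3 < ‖inner ℂ a b‖ := by
    intro a b hab
    exact (Real.sqrt_lt' (norm_pos_iff.2 (nz hab))).2 hab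
  have hC := cert h ![a, b, c] hh (by intro i; fin_cases i <;> assumption)
    (by
      intro i
      fin_cases i
      · exact nz ka
      · exact nz kb
      · exact nz kc) (2 * ck 3) ![1, 2 * ck 4, 1] ![d1 * u, d2 * u, d3 * u]
  have nba : ‖inner ℂ b a‖ = ‖inner ℂ a b‖ := norm_inner_symm b a
  have ncb : ‖inner ℂ c b‖ = ‖inner ℂ b c‖ := norm_inner_symm c b
  have nac : ‖inner ℂ a c‖ = ‖inner ℂ c a‖ := norm_inner_symm a c
  simp only [Fin.sum_univ_three, Matrix.cons_val_zero, Matrix.cons_val_one, Matrix.cons_val,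
    Fin.isValue, Fin.reduceEq, if_true, if_false] at hC
  rw [sx, sy, sz, nba, ncb, nac, sub_neg_eq_add, sub_neg_eq_add, sub_neg_eq_add, cos_sw, cos_sw,
    cos_sw, ex, ey, ez] at hC
  have f1 : ∀ k : ℝ, Real.cos (k * u) = ck k := by
    intro k
    unfold ck
    rw [hu]
  have f4 : Real.pi - x * u - d1 * u + d2 * u = (14 - x - d1 + d2) * u := by
    rw [hpu]; ring
  have f5 : Real.pi - y * u - d2 * u + d3 * u = (14 - y - d2 + d3) * u := by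
    rw [hpu]; ring
  have f6 : Real.pi - z * u - d3 * u + d1 * u = (14 - z - d3 + d1) * u := by
    rw [hpu]; ring
  rw [f4, f5, f6, f1, f1, f1, f1, f1, f1] at hC
  have hk : Real.sqrt k3 * ck 1 = 1 / 2 := by
    rw [← sqrt_k3]
    unfold ck
    rw [one_mul]
  obtain ⟨ρ, hρ⟩ : ∃ r, r = Real.sqrt k3 := ⟨_, rfl⟩
  have hρ0 : 0 < ρ := by rw [hρ]; exact Real.sqrt_pos.2 k3_pos
  have r1 := rt ka
  have r2 := rt kb
  have r3 := rt kc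
  have r4 := rt kab
  have r5 := rt kbc
  have r6 := rt kca
  rw [← hρ] at hk r1 r2 r3 r4 r5 r6
  obtain ⟨n1, e1⟩ : ∃ n, n = ‖inner ℂ h a‖ := ⟨_, rfl⟩
  obtain ⟨n2, e2⟩ : ∃ n, n = ‖inner ℂ h b‖ := ⟨_, rfl⟩
  obtain ⟨n3, e3⟩ : ∃ n, n = ‖inner ℂ h c‖ := ⟨_, rfl⟩
  obtain ⟨n4, e4⟩ : ∃ n, n = ‖inner ℂ a b‖ := ⟨_, rfl⟩
  obtain ⟨n5, e5⟩ : ∃ n, n = ‖inner ℂ b c‖ := ⟨_, rfl⟩
  obtain ⟨n6, e6⟩ : ∃ n, n = ‖inner ℂ c a‖ := ⟨_, rfl⟩
  rw [← e1, ← e2, ← e3, ← e4, ← e5, ← e6] at hC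
  rw [← e1] at r1
  rw [← e2] at r2
  rw [← e3] at r3
  rw [← e4] at r4
  rw [← e5] at r5
  rw [← e6] at r6
  obtain ⟨C, hCd⟩ : ∃ A, A = ck 3 := ⟨_, rfl⟩
  obtain ⟨D, hD⟩ : ∃ A, A = ck 4 := ⟨_, rfl⟩
  have k3' := ck3_bd
  have k4 := ck4_bd
  have hv : (2 * ck 3) ^ 2 + (2 * ck 4) ^ 2 = 4 := by
    have i1 := ck_sq 3
    have i2 := ck_sq 4
    have i3 : ck (2 * 4) = -ck (2 * 3) := by
      rw [← ck_compl]; norm_num
    rw [i3] at i2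
    linarith
  rw [← hCd] at hC hf k3' hv
  rw [← hD] at hC hf k4 hv
  have hC0 : 0 < C := by linarith
  have hD0 : 0 < D := by linarith
  have s1 := mul_le_mul_of_nonneg_right r1.le (mul_nonneg hC0.le g1)
  have s2 := mul_lt_mul_of_pos_right r2 (mul_pos (mul_pos hC0 hD0) g2)
  have s3 := mul_le_mul_of_nonneg_right r3.le (mul_nonneg hC0.le g3)
  have s4 := mul_le_mul_of_nonneg_right r4.le (mul_nonneg hD0.le g4)
  have s5 := mul_le_mul_of_nonneg_right r5.le (mul_nonneg hD0.le g5)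
  have s6 := mul_le_mul_of_nonneg_right r6.le g6
  have hf2 := mul_le_mul_of_nonneg_left hf hρ0.le
  have e6 : ρ * (6 * ck 1) = 3 := by linarith
  rw [e6] at hf2
  have t1 : 3 ≤ 2 * (ρ * (C * ck d1)) + 4 * (ρ * (C * D * ck d2)) + 2 * (ρ * (C * ck d3)) +
      2 * (ρ * (D * ck (14 - x - d1 + d2))) + 2 * (ρ * (D * ck (14 - y - d2 + d3))) +
      ρ * ck (14 - z - d3 + d1) := by
    refine hf2.trans (le_of_eq ?_)
    ring
  have t2 : 2 * (n1 * (C * ck d1)) + 4 * (n2 * (C * D * ck d2)) + 2 * (n3 * (C * ck d3)) +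
      2 * (n4 * (D * ck (14 - x - d1 + d2))) + 2 * (n5 * (D * ck (14 - y - d2 + d3))) +
      n6 * ck (14 - z - d3 + d1) ≤ 3 := by
    linarith
  linarith

theorem pf_W33 (hMN3 : T_MN3) : T_W33 := by
  intro E _ _ p hp
  obtain ⟨hn, hk⟩ := hp
  have h3 := (hMN3 E).1
  have tr : ∀ i j k : Fin 4, ar (p i) (p j) (p k) ≤ 11 * Real.pi / 14 ∧
      ar (p i) (p k) (p j) = -ar (p i) (p j) (p k) := by
    intro i j k
    have h := h3 ![p i, p j, p k] ⟨by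
      intro l
      fin_cases l
      · exact hn i
      · exact hn j
      · exact hn k, by
      intro l m
      fin_cases l <;> fin_cases m <;> exact hk _ _⟩
    exact ⟨(abs_le.1 h.2.2.2.2.2.le).2, h.2.1⟩
  rcases le_total (ar (p 0) (p 3) (p 1)) (ar (p 0) (p 1) (p 2)) with h1 | h1 <;>
  rcases le_total (ar (p 0) (p 3) (p 1)) (ar (p 0) (p 2) (p 3)) with h2 | h2 <;>
  rcases le_total (ar (p 0) (p 1) (p 2)) (ar (p 0) (p 2) (p 3)) with h4 | h4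
  · exact w3_aux _ _ _ _ (hn 0) (hn 1) (hn 2) (hn 3) (hk 0 1) (hk 0 2) (hk 0 3) (hk 1 2) (hk 2 3)
      (hk 3 1) (tr 0 1 2).1 (tr 0 2 3).1 (tr 0 1 2).2 (tr 0 2 3).2 (tr 0 3 1).2 h1 h2
  · exact w3_aux _ _ _ _ (hn 0) (hn 1) (hn 2) (hn 3) (hk 0 1) (hk 0 2) (hk 0 3) (hk 1 2) (hk 2 3)
      (hk 3 1) (tr 0 1 2).1 (tr 0 2 3).1 (tr 0 1 2).2 (tr 0 2 3).2 (tr 0 3 1).2 h1 h2
  · have := w3_aux _ _ _ _ (hn 0) (hn 3) (hn 1) (hn 2) (hk 0 3) (hk 0 1) (hk 0 2) (hk 3 1) (hk 1 2)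
      (hk 2 3) (tr 0 3 1).1 (tr 0 1 2).1 (tr 0 3 1).2 (tr 0 1 2).2 (tr 0 2 3).2 h2
      (h2.trans h1)
    linarith
  · have := w3_aux _ _ _ _ (hn 0) (hn 3) (hn 1) (hn 2) (hk 0 3) (hk 0 1) (hk 0 2) (hk 3 1) (hk 1 2)
      (hk 2 3) (tr 0 3 1).1 (tr 0 1 2).1 (tr 0 3 1).2 (tr 0 1 2).2 (tr 0 2 3).2 h2 h4
    linarith
  · have := w3_aux _ _ _ _ (hn 0) (hn 2) (hn 3) (hn 1) (hk 0 2) (hk 0 3) (hk 0 1) (hk 2 3) (hk 3 1)
      (hk 1 2) (tr 0 2 3).1 (tr 0 3 1).1 (tr 0 2 3).2 (tr 0 3 1).2 (tr 0 1 2).2 h4 h1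
    linarith
  · have := w3_aux _ _ _ _ (hn 0) (hn 2) (hn 3) (hn 1) (hk 0 2) (hk 0 3) (hk 0 1) (hk 2 3) (hk 3 1)
      (hk 1 2) (tr 0 2 3).1 (tr 0 3 1).1 (tr 0 2 3).2 (tr 0 3 1).2 (tr 0 1 2).2 (h1.trans h2) h1
    linarith
  · have := w3_aux _ _ _ _ (hn 0) (hn 2) (hn 3) (hn 1) (hk 0 2) (hk 0 3) (hk 0 1) (hk 2 3) (hk 3 1)
      (hk 1 2) (tr 0 2 3).1 (tr 0 3 1).1 (tr 0 2 3).2 (tr 0 3 1).2 (tr 0 1 2).2 h4 h1
    linarith
  · have := w3_aux _ _ _ _ (hn 0) (hn 3) (hn 1) (hn 2) (hk 0 3) (hk 0 1) (hk 0 2) (hk 3 1) (hk 1 2)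
      (hk 2 3) (tr 0 3 1).1 (tr 0 1 2).1 (tr 0 3 1).2 (tr 0 1 2).2 (tr 0 2 3).2 h2 h4
    linarith

end Pool.Agent.H81.CP
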