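import Pool.Agent.H81.CP.MQ
import Pool.Agent.H81.CP.W3
import Pool.Agent.H59.CPT.Quad
import Pool.Agent.H59.CPT.HPT

/-!
MP_6a7a6f_gt, the level of `rad 3`: the exceptional configurations of seven points.
-/

set_option autoImplicit false

open Pool.Agent.H58.FL Pool.Agent.H59 Pool.Agent.H48.FR Pool.Agent.H58.FN Pool.Agent.H59.CPT

namespace Pool.Agent.H81.CP

section

variable {E : Type} [NormedAddCommGroup E] [InnerProductSpace ℂ E]

theorem tri (hMN : T_MN3) {n : ℕ} (p : Fin n → E) (hp : Cl3 p) (i j k : Fin n) :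
    ar (p j) (p i) (p k) = -ar (p i) (p j) (p k) ∧ ar (p i) (p k) (p j) = -ar (p i) (p j) (p k) ∧
    ar (p j) (p k) (p i) = ar (p i) (p j) (p k) ∧ ar (p k) (p i) (p j) = ar (p i) (p j) (p k) ∧
    ar (p k) (p j) (p i) = -ar (p i) (p j) (p k) ∧
    |ar (p i) (p j) (p k)| < 11 * Real.pi / 14 :=
  (hMN E).1 (p ∘ ![i, j, k]) ⟨fun _ => hp.1 _, fun _ _ => hp.2 _ _⟩

/-- the phases of a monopole are large -/
theorem mono_face (hMN : T_MN3) {n : ℕ} (p : Fin n → E) (hp : Cl3 p) (i j k l : Fin n)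
    (h : mn (p i) (p j) (p k) (p l) = -1) : 3 * Real.pi / 14 < ar (p i) (p k) (p l) := by
  have hp0 := Real.pi_pos
  have hw := pf_W33 hMN E (p ∘ ![j, k, i, l]) ⟨fun _ => hp.1 _, fun _ _ => hp.2 _ _⟩
  have hw2 : ar (p j) (p k) (p i) + ar (p j) (p i) (p l) + ar (p j) (p l) (p k) <
      25 * Real.pi / 14 := hw
  unfold mn at h
  rw [div_eq_iff (by positivity)] at h
  have t1 := (tri hMN p hp i j k).2.2.1
  have t2 := (tri hMN p hp i j l).1
  have t3 := (tri hMN p hp j k l).2.1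
  linarith

/-- X5 -/
theorem x5 (hMN : T_MN3) (hW : T_W4R) (p : Fin 5 → E) (hp : Cl3 p)
    (m1 : mn (p 0) (p 1) (p 3) (p 4) = -1) (m2 : mn (p 0) (p 1) (p 2) (p 3) = 0)
    (m3 : mn (p 0) (p 1) (p 2) (p 4) = 0) (m4 : mn (p 0) (p 2) (p 3) (p 4) = 0)
    (h1 : 3 * Real.pi / 14 < ar (p 0) (p 4) (p 2)) (h2 : 3 * Real.pi / 14 < ar (p 0) (p 2) (p 3))
    (h3 : ar (p 0) (p 3) (p 4) ≤ ar (p 0) (p 4) (p 2))
    (h4 : ar (p 0) (p 3) (p 4) ≤ ar (p 0) (p 2) (p 3)) : False := by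
  have hpi := Real.pi_pos
  obtain ⟨u, hu⟩ : ∃ u, u = Real.pi / 14 := ⟨_, rfl⟩
  have hu0 : 0 < u := by rw [hu]; positivity
  have hpu : Real.pi = 14 * u := by rw [hu]; ring
  have T := tri hMN p hp
  obtain ⟨s, hs⟩ : ∃ s, ar (p 0) (p 1) (p 3) = s * u := ⟨ar (p 0) (p 1) (p 3) / u, by field_simp⟩
  obtain ⟨t, ht⟩ : ∃ s, ar (p 0) (p 4) (p 1) = s * u := ⟨ar (p 0) (p 4) (p 1) / u, by field_simp⟩
  obtain ⟨a, ha⟩ : ∃ s, ar (p 0) (p 1) (p 2) = s * u := ⟨ar (p 0) (p 1) (p 2) / u, by field_simp⟩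
  obtain ⟨q0, hq0⟩ : ∃ s, ar (p 0) (p 3) (p 4) = s * u :=
    ⟨ar (p 0) (p 3) (p 4) / u, by field_simp⟩
  obtain ⟨q1, hq1⟩ : ∃ s, ar (p 0) (p 4) (p 2) = s * u :=
    ⟨ar (p 0) (p 4) (p 2) / u, by field_simp⟩
  obtain ⟨q2, hq2⟩ : ∃ s, ar (p 0) (p 2) (p 3) = s * u :=
    ⟨ar (p 0) (p 2) (p 3) / u, by field_simp⟩
  -- the other faces
  have f0 := mono_face hMN p hp 0 1 3 4 m1
  have M1 := m1
  have M2 := m2
  have M3 := m3
  have M4 := m4
  unfold mn at M1 M2 M3 M4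
  rw [div_eq_iff (by positivity)] at M1 M2 M3 M4
  have e014 : ar (p 0) (p 1) (p 4) = -(t * u) := by
    rw [(T 0 4 1).2.1, ht]
  have e024 : ar (p 0) (p 2) (p 4) = -(q1 * u) := by
    rw [(T 0 4 2).2.1, hq1]
  rw [hs, hq0, e014, hpu] at M1
  rw [hq2, hs, ha] at M2
  rw [e024, e014, ha] at M3
  rw [hq0, e024, hq2] at M4
  have c1 : ar (p 1) (p 3) (p 4) = -((28 - s - t - q0) * u) := by linarith
  have c2 : ar (p 2) (p 3) (p 4) = (q0 + q1 + q2) * u := by linarith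
  rw [hq1, hpu] at h1
  rw [hq2, hpu] at h2
  rw [hq0, hq1] at h3
  rw [hq0, hq2] at h4
  rw [hq0, hpu] at f0
  have b1 := (T 0 1 3).2.2.2.2.2
  have b2 := (T 0 4 1).2.2.2.2.2
  have b3 := (T 1 3 4).2.2.2.2.2
  have b4 := (T 2 3 4).2.2.2.2.2
  rw [hs, hpu] at b1
  rw [ht, hpu] at b2
  rw [c1, hpu, abs_neg] at b3
  rw [c2, hpu] at b4
  have dv : ∀ {x y : ℝ}, x * u < y * u → x < y := fun h => lt_of_mul_lt_mul_right h hu0.le
  have dw : ∀ {x y : ℝ}, x * u ≤ y * u → x ≤ y := fun h => le_of_mul_le_mul_right h hu0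
  have g1 : 3 < q1 := dv (by linarith)
  have g2 : 3 < q2 := dv (by linarith)
  have g3 : q0 ≤ q1 := dw h3
  have g4 : q0 ≤ q2 := dw h4
  have g5 : 3 < q0 := dv (by linarith)
  have g6 : s < 11 := dv (by linarith [(abs_lt.1 b1).2])
  have g7 : t < 11 := dv (by linarith [(abs_lt.1 b2).2])
  have g8 : 28 - s - t - q0 < 11 := dv (by linarith [(abs_lt.1 b3).2])
  have g9 : q0 + q1 + q2 < 11 := dv (by linarith [(abs_lt.1 b4).2])
  -- the wheels
  have w1 := hW E (p 3) (p 0) (p 1) (p 4) (p 2) (hp.1 3) (hp.1 0) (hp.1 1) (hp.1 4) (hp.1 2)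
    (hp.2 _ _) (hp.2 _ _) (hp.2 _ _) (hp.2 _ _) (hp.2 _ _) (hp.2 _ _) (hp.2 _ _) (hp.2 _ _)
  have w2 := hW E (p 4) (p 0) (p 2) (p 3) (p 1) (hp.1 4) (hp.1 0) (hp.1 2) (hp.1 3) (hp.1 1)
    (hp.2 _ _) (hp.2 _ _) (hp.2 _ _) (hp.2 _ _) (hp.2 _ _) (hp.2 _ _) (hp.2 _ _) (hp.2 _ _)
  rw [(T 0 1 3).2.2.2.1, (T 1 3 4).1, (T 2 3 4).2.2.1, (T 0 2 3).2.2.2.2.1, hs, c1, c2, hq2,
    hpu] at w1
  rw [(T 0 2 4).2.2.2.1, (T 2 3 4).2.2.2.1, (T 1 3 4).2.2.2.2.1, (T 0 4 1).2.2.1, e024, c2, c1,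
    ht, hpu] at w2
  have k1 : q1 + 13 / 10 < t := by
    have : q1 + 13 / 10 - t < 0 := by
      by_contra hc
      push Not at hc
      nlinarith [mul_nonneg hc hu0.le]
    linarith
  have k2 : q2 + 13 / 10 < s := by
    have : q2 + 13 / 10 - s < 0 := by
      by_contra hc
      push Not at hc
      nlinarith [mul_nonneg hc hu0.le]
    linarith
  -- the quadrilaterals
  have z1 : mn (p 0) (p 4) (p 1) (p 2) = 0 := by
    unfold mn
    rw [div_eq_zero_iff]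
    left
    rw [(T 1 2 4).2.2.2.1, ha, ht, hq1]
    linarith
  have z2 : mn (p 0) (p 2) (p 1) (p 3) = 0 := by
    unfold mn
    rw [div_eq_zero_iff]
    left
    rw [(T 1 2 3).1, hs, hq2, (T 0 1 2).2.1, ha]
    linarith
  have r1 : ar (p 0) (p 4) (p 1) + ar (p 0) (p 1) (p 2) < 11 * Real.pi / 14 :=
    QUAD (p ∘ ![0, 4, 1, 2]) ⟨fun _ => hp.1 _, fun _ _ => hp.2 _ _⟩ z1
  have r2 : ar (p 0) (p 2) (p 1) + ar (p 0) (p 1) (p 3) < 11 * Real.pi / 14 :=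
    QUAD (p ∘ ![0, 2, 1, 3]) ⟨fun _ => hp.1 _, fun _ _ => hp.2 _ _⟩ z2
  rw [ht, ha, hpu] at r1
  rw [(T 0 1 2).2.1, ha, hs, hpu] at r2
  have k3' : t + a < 11 := dv (by linarith)
  have k4 : s - a < 11 := dv (by linarith)
  have k5 : t + a < 193 / 20 := by
    by_contra hc
    push Not at hc
    have hE := quad_ex t (t + a) q1 (by linarith) g7.le hc k3'.le g1.le (by linarith)
    refine Ex.elim (h := p 0) (a := p 4) (b := p 1) (c := p 2) (hp.1 _) (hp.1 _) (hp.1 _) (hp.1 _)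
      (hp.2 _ _) (hp.2 _ _) (hp.2 _ _) (hp.2 _ _) (hp.2 _ _) (hp.2 _ _) (by norm_num)
      (by norm_num) (by norm_num) (by norm_num) (by norm_num) (x := t) (y := a) (z := -q1)
      (by rw [ht, hu]) (by rw [ha, hu]) (by rw [hq1, hu]; ring) 0 0 (-1) ?_ ?_ ?_ hE
    · push_cast
      ring
    · push_cast
      ring
    · push_cast
      ring
  have k6 : s - a < 193 / 20 := by
    by_contra hc
    push Not at hc
    have hE := (quad_ex s (s - a) q2 (by linarith) g6.le hc k4.le g2.le (by linarith)).neg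
    refine Ex.elim (h := p 0) (a := p 3) (b := p 1) (c := p 2) (hp.1 _) (hp.1 _) (hp.1 _) (hp.1 _)
      (hp.2 _ _) (hp.2 _ _) (hp.2 _ _) (hp.2 _ _) (hp.2 _ _) (hp.2 _ _) (by norm_num)
      (by norm_num) (by norm_num) (by norm_num) (by norm_num) (x := -s) (y := a) (z := q2)
      (by rw [(T 0 1 3).2.1, hs, hu]; ring) (by rw [ha, hu])
      (by rw [(T 0 2 3).2.1, hq2, hu]) (-1) (-1) 0 ?_ ?_ ?_ hE
    · push_cast
      ring
    · push_cast
      ring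
    · push_cast
      ring
  -- the monopole
  have hE := mono_ex q0 s t (28 - s - t - q0) g5.le (by linarith) (by ring) (by linarith) g6.le
    (by linarith) g7.le (by linarith) g8.le
  refine Ex.elim (h := p 1) (a := p 3) (b := p 0) (c := p 4) (hp.1 _) (hp.1 _) (hp.1 _) (hp.1 _)
    (hp.2 _ _) (hp.2 _ _) (hp.2 _ _) (hp.2 _ _) (hp.2 _ _) (hp.2 _ _) (by norm_num)
    (by norm_num) (by norm_num) (by norm_num) (by norm_num) (x := s) (y := t)
    (z := 28 - s - t - q0) (by rw [(T 0 1 3).2.2.1, hs, hu])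
    (by rw [(T 0 4 1).2.2.2.1, ht, hu]) (by rw [c1, hu]) 0 0 0 ?_ ?_ ?_ hE
  · push_cast
    ring
  · push_cast
    ring
  · push_cast
    ring

end

/-- X73 -/
theorem pf_X73 (hMN : T_MN3) (hW : T_W4R) : T_X73 := by
  intro E _ _ p hp hx
  have q0 : 3 * Real.pi / 14 < ar (p 0) (p 6) (p 5) := mono_face hMN p hp 0 1 6 5 (by
    rw [hx]
    have : x7 0 1 6 5 = -1 := by decide
    rw [this]
    norm_num)
  have q1 : 3 * Real.pi / 14 < ar (p 0) (p 4) (p 6) := mono_face hMN p hp 0 2 4 6 (by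
    rw [hx]
    have : x7 0 2 4 6 = -1 := by decide
    rw [this]
    norm_num)
  have q2 : 3 * Real.pi / 14 < ar (p 0) (p 5) (p 4) := mono_face hMN p hp 0 3 5 4 (by
    rw [hx]
    have : x7 0 3 5 4 = -1 := by decide
    rw [this]
    norm_num)
  have V : ∀ (i j k l : Fin 7) (z : ℤ), x7 i j k l = z →
      mn (p i) (p j) (p k) (p l) = (z : ℝ) := by
    intro i j k l z h
    rw [hx, h]
  have K : ∀ f : Fin 5 → Fin 7, x7 (f 0) (f 1) (f 3) (f 4) = -1 →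
      x7 (f 0) (f 1) (f 2) (f 3) = 0 → x7 (f 0) (f 1) (f 2) (f 4) = 0 →
      x7 (f 0) (f 2) (f 3) (f 4) = 0 → 3 * Real.pi / 14 < ar (p (f 0)) (p (f 4)) (p (f 2)) →
      3 * Real.pi / 14 < ar (p (f 0)) (p (f 2)) (p (f 3)) →
      ar (p (f 0)) (p (f 3)) (p (f 4)) ≤ ar (p (f 0)) (p (f 4)) (p (f 2)) →
      ar (p (f 0)) (p (f 3)) (p (f 4)) ≤ ar (p (f 0)) (p (f 2)) (p (f 3)) → False := by
    intro f a1 a2 a3 a4 a5 a6 a7 a8
    refine x5 hMN hW (p ∘ f) ⟨fun _ => hp.1 _, fun _ _ => hp.2 _ _⟩ ?_ ?_ ?_ ?_ a5 a6 a7 a8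
    · have := V _ _ _ _ _ a1
      push_cast at this
      exact this
    · have := V _ _ _ _ _ a2
      push_cast at this
      exact this
    · have := V _ _ _ _ _ a3
      push_cast at this
      exact this
    · have := V _ _ _ _ _ a4
      push_cast at this
      exact this
  rcases le_total (ar (p 0) (p 6) (p 5)) (ar (p 0) (p 4) (p 6)) with h1 | h1 <;>
  rcases le_total (ar (p 0) (p 6) (p 5)) (ar (p 0) (p 5) (p 4)) with h2 | h2 <;>
  rcases le_total (ar (p 0) (p 4) (p 6)) (ar (p 0) (p 5) (p 4)) with h3 | h3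
  · exact K ![0, 1, 4, 6, 5] (by decide) (by decide) (by decide) (by decide) q2 q1 h2 h1
  · exact K ![0, 1, 4, 6, 5] (by decide) (by decide) (by decide) (by decide) q2 q1 h2 h1
  · exact K ![0, 3, 6, 5, 4] (by decide) (by decide) (by decide) (by decide) q1 q0
      (h2.trans h1) h2
  · exact K ![0, 3, 6, 5, 4] (by decide) (by decide) (by decide) (by decide) q1 q0 h3 h2
  · exact K ![0, 2, 5, 4, 6] (by decide) (by decide) (by decide) (by decide) q0 q2 h1 h3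
  · exact K ![0, 2, 5, 4, 6] (by decide) (by decide) (by decide) (by decide) q0 q2 h1
      (h1.trans h2)
  · exact K ![0, 2, 5, 4, 6] (by decide) (by decide) (by decide) (by decide) q0 q2 h1 h3
  · exact K ![0, 3, 6, 5, 4] (by decide) (by decide) (by decide) (by decide) q1 q0 h3 h2

end Pool.Agent.H81.CP
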